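import Pool.Agent.helper65.UT.Dur

/-! # MP_5ae64c_pr: the a priori bound `Z_q ≤ (4θ+8)²` -/

namespace Pool.Agent.helper65.UT

open Finset

variable {V : Type*} [Fintype V] [DecidableEq V]

theorem ZA_nil_eq_Z (p : V → V → ℝ) (q T : ℕ) (x : V) : ZA p [] q T x = Z p T x q := by
  unfold ZA Z zA
  refine sum_congr rfl fun t _ => W_congr p t x fun l _ => ?_
  by_cases h : (run [x] l).length = q + 1
  · rw [if_pos h, ind_of ⟨by simp, h⟩]
  · rw [if_neg h, ind_of_not (fun hh => h hh.2)]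

/-- most of the mass at level `q` sits at times `≤ K` -/
theorem Z_le_two_mul (p : V → V → ℝ) (hp : ∀ x y, 0 ≤ p x y) (θ : ℝ) (T0 : ℕ)
    (hθ : ∀ x, ∑ L ∈ range (T0 + 1), (L : ℝ) * gA p [] L x ≤ θ) (q T K : ℕ) (hT : T ≤ T0)
    (hK : 2 * (q + (q + 1) * θ) ≤ K) (x : V) :
    Z p T x q ≤ 2 * ∑ t ∈ range (K + 1), zA p [] q t x := by
  rw [← ZA_nil_eq_Z]
  have h1 := duration_bound p hp θ T0 hθ q T hT [] x
  have hz := fun t => zA_nonneg p hp [] q t x
  have h2 : ∀ t ∈ range (T + 1), (K : ℝ) * zA p [] q t x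
      ≤ (t : ℝ) * zA p [] q t x + K * (if t < K + 1 then zA p [] q t x else 0) := by
    intro t _
    split_ifs with h
    · have := mul_nonneg (Nat.cast_nonneg (α := ℝ) t) (hz t)
      linarith
    · have : (K : ℝ) ≤ t := by
        have : K ≤ t := by omega
        exact_mod_cast this
      have := mul_le_mul_of_nonneg_right this (hz t)
      linarith
  have h3 := sum_le_sum h2
  rw [← mul_sum, sum_add_distrib, ← mul_sum] at h3
  have h4 : ∑ t ∈ range (T + 1), (if t < K + 1 then zA p [] q t x else 0)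
      ≤ ∑ t ∈ range (K + 1), zA p [] q t x := by
    rw [← sum_filter]
    refine sum_le_sum_of_subset_of_nonneg ?_ fun t _ _ => hz t
    intro t ht
    rw [mem_filter] at ht
    exact mem_range.2 ht.2
  have h5 : 0 ≤ ∑ t ∈ range (K + 1), zA p [] q t x := sum_nonneg fun t _ => hz t
  have hZ0 := ZA_nonneg p hp [] q T x
  change (K : ℝ) * ZA p [] q T x ≤ _ at h3
  rcases Nat.eq_zero_or_pos K with h0 | h0
  · -- K = 0 : everything is at time zero
    subst h0
    have h6 : (q : ℝ) + (q + 1) * θ ≤ 0 := by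
      push_cast at hK; linarith
    have h7 : ∑ t ∈ range (T + 1), (t : ℝ) * zA p [] q t x ≤ 0 :=
      h1.trans (mul_nonpos_of_nonpos_of_nonneg h6 hZ0)
    have h8 : ∀ t ∈ range (T + 1), (t : ℝ) * zA p [] q t x = 0 := by
      have hnn : ∀ t ∈ range (T + 1), 0 ≤ (t : ℝ) * zA p [] q t x :=
        fun t _ => mul_nonneg (Nat.cast_nonneg _) (hz t)
      have := (sum_eq_zero_iff_of_nonneg hnn).1 (le_antisymm h7 (sum_nonneg hnn))
      exact this
    have h9 : ZA p [] q T x = zA p [] q 0 x := by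
      unfold ZA
      rw [sum_range_succ']
      have : ∑ t ∈ range T, zA p [] q (t + 1) x = 0 := by
        refine sum_eq_zero fun t ht => ?_
        have := h8 (t + 1) (by rw [mem_range] at ht ⊢; omega)
        rcases mul_eq_zero.1 this with h | h
        · exfalso
          have : (0 : ℝ) < ((t + 1 : ℕ) : ℝ) := by positivity
          linarith
        · exact h
      rw [this, zero_add]
    rw [h9]
    have := hz 0
    simp only [zero_add, range_one, sum_singleton]
    linarith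
  · have hKp : (0 : ℝ) < K := by exact_mod_cast h0
    have h6 : (q + (q + 1) * θ) * ZA p [] q T x ≤ K / 2 * ZA p [] q T x :=
      mul_le_mul_of_nonneg_right (by linarith) hZ0
    have h7 : (K : ℝ) * ZA p [] q T x ≤ K * (2 * ∑ t ∈ range (K + 1), zA p [] q t x) := by
      have := mul_le_mul_of_nonneg_left h4 hKp.le
      nlinarith
    exact le_of_mul_le_mul_left h7 hKp

/-- the levels are exclusive -/
theorem sum_zA_le_one (p : V → V → ℝ) (hp : ∀ x y, 0 ≤ p x y) (hp1 : ∀ x, ∑ y, p x y = 1)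
    (Q t : ℕ) (x : V) : ∑ q ∈ range (Q + 1), zA p [] q t x ≤ 1 := by
  unfold zA
  rw [← W_sum]
  refine (W_mono p hp t x (g := fun _ => 1) fun l _ => ?_).trans_eq (W_const p hp1 t x 1)
  by_cases h : ∃ q ∈ range (Q + 1), (run [x] l).length = q + 1
  · obtain ⟨q, hq, hl⟩ := h
    rw [sum_eq_single_of_mem q hq]
    · exact ind_le_one _
    · intro q' _ hne
      refine ind_of_not fun hh => hne ?_
      omega
  · rw [sum_eq_zero]
    · norm_num
    · intro q hq
      exact ind_of_not fun hh => h ⟨q, hq, hh.2⟩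

/-- **A priori bound.** -/
theorem Z_le (p : V → V → ℝ) (hp : ∀ x y, 0 ≤ p x y) (hp1 : ∀ x, ∑ y, p x y = 1)
    (htr : ∀ x y : V, ∃ σ : V ≃ V, σ x = y ∧ ∀ a b, p (σ a) (σ b) = p a b)
    (θ : ℝ) (hθ0 : 0 ≤ θ) (T : ℕ)
    (hθ : ∀ x, ∑ L ∈ range (T + 1), (L : ℝ) * gA p [] L x ≤ θ) (x : V) (q : ℕ) :
    Z p T x q ≤ (4 * θ + 8) ^ 2 := by
  refine sup_of_submul (fun q => Z p T x q) (fun q => Z_nonneg p hp T x q) q
    (fun a b _ => Z_submul p hp htr T x a b) (4 * θ + 8) ?_ q le_rfl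
  intro Q _
  set K : ℕ := ⌈2 * ((Q : ℝ) + (Q + 1) * θ)⌉₊ with hK
  have hK1 : 2 * ((Q : ℝ) + (Q + 1) * θ) ≤ K := Nat.le_ceil _
  have hK2 : (K : ℝ) < 2 * ((Q : ℝ) + (Q + 1) * θ) + 1 := Nat.ceil_lt_add_one (by positivity)
  have h1 : ∀ i ∈ range (Q + 1), Z p T x i ≤ 2 * ∑ t ∈ range (K + 1), zA p [] i t x := by
    intro i hi
    rw [mem_range] at hi
    refine Z_le_two_mul p hp θ T hθ i T K le_rfl ?_ x
    have : (i : ℝ) ≤ Q := by
      have : i ≤ Q := by omega
      exact_mod_cast this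
    nlinarith
  refine (sum_le_sum h1).trans ?_
  rw [← mul_sum, sum_comm]
  have h2 : ∑ t ∈ range (K + 1), ∑ i ∈ range (Q + 1), zA p [] i t x ≤ K + 1 := by
    refine (sum_le_sum fun t _ => sum_zA_le_one p hp hp1 Q t x).trans ?_
    simp
  have hQ : (0 : ℝ) ≤ Q := Nat.cast_nonneg _
  nlinarith

end Pool.Agent.helper65.UT
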