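import Pool.Agent.helper65.UT.FinalDed

/-! # MP_5ae64c_pr: abstract final deduction for finite uniform averages (helper65) -/

open MeasureTheory Filter Topology
open scoped BoundedContinuousFunction

namespace Pool.Agent.helper65.UT

/-- the uniform average over a finite type -/
noncomputable def favg {T : Type*} [Fintype T] (f : T → ℝ) : ℝ := (∑ ω, f ω) / Fintype.card T

theorem integral_uniform_eq_favg {T : Type*} [Fintype T] [Nonempty T] (f : T → ℝ) :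
    letI : MeasurableSpace T := ⊤
    ∫ ω, f ω ∂(PMF.uniformOfFintype T).toMeasure = favg f := by
  letI : MeasurableSpace T := ⊤
  haveI : DiscreteMeasurableSpace T := ⟨fun _ => trivial⟩
  rw [PMF.integral_eq_sum]
  simp only [PMF.uniformOfFintype_apply, ENNReal.toReal_inv, ENNReal.toReal_natCast, smul_eq_mul,
    favg]
  rw [← Finset.mul_sum, mul_comm, div_eq_mul_inv]

/-- **Final deduction**, finite uniform averages. -/
theorem fdd_of_smooth_fin {T : ℕ → Type*} [∀ k, Fintype (T k)] [∀ k, Nonempty (T k)]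
    (N : ℕ → ℕ) (hN : Tendsto N atTop atTop)
    (β : ℕ → ℝ) (b B : ℝ) (hb : 0 < b) (hβ : ∀ k, b ≤ β k) (hβ' : ∀ k, β k ≤ B)
    (H : ∀ k, T k → ℕ → ℝ)
    (h0 : ∀ k ω r, 0 ≤ H k ω r) (hsum : ∀ k ω M, ∑ s ∈ Finset.range M, H k ω s ≤ N k)
    (hsm : ∀ A : ℝ, 0 < A → ∀ ε : ℝ, 0 < ε → ∃ δ : ℝ, 0 < δ ∧ ∀ᶠ k in atTop,
      ∀ r r' : ℕ, (r : ℝ) ≤ A * Real.sqrt (N k) → (r' : ℝ) ≤ A * Real.sqrt (N k) →
        |(r : ℝ) - r'| ≤ δ * Real.sqrt (N k) →
        favg (fun ω => (H k ω r - H k ω r') ^ 2) ≤ ε * N k)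
    {Ω' : Type*} [MeasurableSpace Ω'] (P' : Measure Ω') [IsProbabilityMeasure P']
    (V : Ω' → ℝ → ℝ) (ℓ : Ω' → ℝ → ℝ)
    (hVm : ∀ r, 0 < r → AEMeasurable (fun ω => V ω r) P')
    (hder : ∀ r, 0 < r → ∀ᵐ ω ∂P',
      Tendsto (fun ε : ℝ => (V ω (r + ε) - V ω r) / ε) (𝓝[>] 0) (𝓝 (ℓ ω r)))
    (hconv : ∀ (m : ℕ) (r : Fin m → ℝ), (∀ i, 0 < r i) → ∀ g : (Fin m → ℝ) →ᵇ ℝ,
      Tendsto (fun k => favg (fun ω => g (fun i =>
        ∑ s ∈ Finset.range (⌊r i * β k * Real.sqrt (N k)⌋₊ + 1), H k ω s / N k))) atTop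
        (𝓝 (∫ ω, g (fun i => V ω (r i)) ∂P')))
    (m : ℕ) (r : Fin m → ℝ) (hr : ∀ i, 0 < r i) (g : (Fin m → ℝ) →ᵇ ℝ) :
    Tendsto (fun k => favg (fun ω => g (fun i =>
      β k / Real.sqrt (N k) * H k ω ⌊r i * β k * Real.sqrt (N k)⌋₊))) atTop
      (𝓝 (∫ ω, g (fun i => ℓ ω (r i)) ∂P')) := by
  letI : ∀ k, MeasurableSpace (T k) := fun _ => ⊤
  haveI : ∀ k, DiscreteMeasurableSpace (T k) := fun k => ⟨fun _ => trivial⟩
  let P : ∀ k, Measure (T k) := fun k => (PMF.uniformOfFintype (T k)).toMeasure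
  haveI : ∀ k, IsProbabilityMeasure (P k) := fun k =>
    inferInstanceAs (IsProbabilityMeasure (PMF.uniformOfFintype (T k)).toMeasure)
  have hP : ∀ k (f : T k → ℝ), ∫ ω, f ω ∂(P k) = favg f := fun k f =>
    integral_uniform_eq_favg f
  have h := fdd_of_smooth P N hN β b B hb hβ hβ' H (fun k r => measurable_from_top.aemeasurable)
    h0 hsum (by simpa only [hP] using hsm) P' V ℓ hVm hder (by simpa only [hP] using hconv)
    m r hr g
  simpa only [hP] using h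

end Pool.Agent.helper65.UT
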