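import Pool.Agent.helper65.UT.ZBound
import Pool.Agent.helper72.UT.Total

/-! # MP_5ae64c_pr: bridge between word sums `W` and helper72's kernel iterates / `Phi` -/

namespace Pool.Agent.helper65.UT

open Finset

variable {V : Type*} [Fintype V] [DecidableEq V]

omit [Fintype V] in
theorem step_eq_stepL (γ : List V) (y : V) : step γ y = helper72.UT.stepL γ y := rfl

/-- iterates of the killed path-state kernel are word sums -/
theorem ker_iterate_eq_W (p : V → V → ℝ) (C : Finset V) (φ : List V → ℝ) (t : ℕ) (x : V)
    (δ : List V) :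
    (helper72.UT.ker p C)^[t] φ (x :: δ)
      = W p t x (fun l => ind (∀ y ∈ l, y ∉ C) * φ (run (x :: δ) l)) := by
  induction t generalizing x δ with
  | zero =>
    rw [Function.iterate_zero, id, W_zero, ind_of (by simp), one_mul, run_nil]
  | succ t ih =>
    rw [Function.iterate_succ_apply', W_succ]
    show (∑ y, p x y * (if y ∈ C then 0 else
      (helper72.UT.ker p C)^[t] φ (helper72.UT.stepL (x :: δ) y))) = _
    refine sum_congr rfl fun y _ => ?_
    congr 1
    obtain ⟨η, hη⟩ := step_eq_cons (x :: δ) y
    have hη' : helper72.UT.stepL (x :: δ) y = y :: η := hη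
    by_cases hy : y ∈ C
    · rw [if_pos hy, ← W_zero_fun p t y]
      refine W_congr p t y fun l _ => ?_
      rw [ind_of_not (fun h => h y List.mem_cons_self hy), zero_mul]
    · rw [if_neg hy, hη', ih y η]
      refine W_congr p t y fun l _ => ?_
      rw [run_cons, hη]
      congr 1
      refine ind_congr ⟨fun h z hz => ?_, fun h z hz => h z (List.mem_cons_of_mem _ hz)⟩
      rcases List.mem_cons.1 hz with h' | h'
      · rw [h']; exact hy
      · exact h z h'

/-- `Phi` as a sum over words -/
theorem Phi_eq_W (p : V → V → ℝ) (γ : List V) (r : ℕ) :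
    helper72.UT.Phi p γ r = ∑ o ∈ γ.toFinset, ∑' t : ℕ,
      W p t o (fun l => ind (∀ y ∈ l, y ∉ γ)
        * (if (run [o] l).length - 1 + helper72.UT.pos γ o = r then (1 : ℝ) else 0)) := by
  unfold helper72.UT.Phi
  refine sum_congr rfl fun o _ => tsum_congr fun t => ?_
  rw [ker_iterate_eq_W]
  refine W_congr p t o fun l _ => ?_
  congr 1
  refine ind_congr ?_
  simp

end Pool.Agent.helper65.UT
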