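import Pool.Agent.helper65.UT.WalkSum

/-! # MP_5ae64c_pr: durations of words at a given level -/

namespace Pool.Agent.helper65.UT

open Finset

variable {V : Type*} [Fintype V] [DecidableEq V]

/-- indicator of a proposition -/
noncomputable def ind (P : Prop) : ℝ := by
  classical exact if P then 1 else 0

theorem ind_of {P : Prop} (h : P) : ind P = 1 := by simp [ind, h]
theorem ind_of_not {P : Prop} (h : ¬ P) : ind P = 0 := by simp [ind, h]
theorem ind_nonneg (P : Prop) : 0 ≤ ind P := by
  by_cases h : P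
  · rw [ind_of h]; norm_num
  · rw [ind_of_not h]
theorem ind_le_one (P : Prop) : ind P ≤ 1 := by
  by_cases h : P
  · rw [ind_of h]
  · rw [ind_of_not h]; norm_num
theorem ind_congr {P Q : Prop} (h : P ↔ Q) : ind P = ind Q := by
  rw [propext h]
theorem ind_and (P Q : Prop) : ind (P ∧ Q) = ind P * ind Q := by
  by_cases h : P
  · by_cases h' : Q
    · rw [ind_of ⟨h, h'⟩, ind_of h, ind_of h', one_mul]
    · rw [ind_of_not (fun hh => h' hh.2), ind_of_not h', mul_zero]
  · rw [ind_of_not (fun hh => h hh.1), ind_of_not h, zero_mul]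
theorem ind_mono {P Q : Prop} (h : P → Q) : ind P ≤ ind Q := by
  by_cases h' : P
  · rw [ind_of h', ind_of (h h')]
  · rw [ind_of_not h']; exact ind_nonneg _

omit [Fintype V] [DecidableEq V] in
/-- last visit to `x`: exactly one -/
theorem sum_last_visit (x z : V) (l : List V) :
    ∑ L ∈ range (l.length + 1), ind (endpt z (l.take L) = x ∧ x ∉ l.drop L) = ind (x ∈ z :: l) := by
  induction l generalizing z with
  | nil =>
    rw [List.length_nil, zero_add, sum_range_one]
    refine ind_congr ?_
    simp only [List.take_nil, endpt_nil, List.drop_nil, List.not_mem_nil, not_false_iff, and_true,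
      List.mem_cons, or_false]
    exact eq_comm
  | cons y l ih =>
    rw [List.length_cons, sum_range_succ']
    simp only [List.take_succ_cons, endpt_cons, List.drop_succ_cons, List.take_zero, endpt_nil,
      List.drop_zero]
    rw [ih y]
    by_cases h : x ∈ y :: l
    · rw [ind_of h, ind_of_not (fun hh => hh.2 h), add_zero, ind_of (List.mem_cons_of_mem _ h)]
    · rw [ind_of_not h, zero_add]
      refine ind_congr ⟨?_, ?_⟩
      · rintro ⟨h1, _⟩
        exact List.mem_cons.2 (Or.inl h1.symm)
      · intro h1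
        rcases List.mem_cons.1 h1 with h1 | h1
        · exact ⟨h1.symm, h⟩
        · exact absurd h1 h

omit [Fintype V] in
/-- the bottom of the state -/
theorem run_ends (x : V) (l : List V) : ∃ δ, run [x] l = δ ++ [x] := by
  induction l using List.reverseRecOn with
  | nil => exact ⟨[], rfl⟩
  | append_singleton l y ih =>
    obtain ⟨δ, hδ⟩ := ih
    have hnd : (δ ++ [x]).Nodup := hδ ▸ nodup_run (by simp) l
    rw [run_concat, hδ]
    by_cases h : y = x
    · subst h
      have h1 := length_step_append_of_mem hnd (List.mem_singleton_self y)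
      obtain ⟨η, hη⟩ := step_eq_cons (δ ++ [y]) y
      rw [hη] at h1 ⊢
      have : η = [] := by
        rw [← List.length_eq_zero_iff]
        simpa using h1
      exact ⟨[], by rw [this]; rfl⟩
    · exact ⟨step δ y, step_append (by simpa using h)⟩

omit [Fintype V] in
theorem run_eq_of_endpt {x : V} {l : List V} (h : endpt x l = x) : run [x] l = [x] := by
  obtain ⟨δ, hδ⟩ := run_ends x l
  have hnd : (δ ++ [x]).Nodup := hδ ▸ nodup_run (by simp) l
  have hh := head?_run x [] l
  rw [hδ] at hh ⊢
  cases δ with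
  | nil => rfl
  | cons a δ =>
    exfalso
    rw [List.cons_append, List.head?_cons, Option.some.injEq] at hh
    have : a = x := hh.trans h
    subst this
    simp at hnd

omit [Fintype V] in
theorem length_run_eq_one_iff (x : V) (l : List V) : (run [x] l).length = 1 ↔ endpt x l = x := by
  constructor
  · intro h
    obtain ⟨δ, hδ⟩ := run_ends x l
    have hh := head?_run x [] l
    rw [hδ] at h hh
    have : δ = [] := by
      rw [← List.length_eq_zero_iff]
      simpa using h
    subst this
    simp only [List.nil_append, List.head?_cons, Option.some.injEq] at hh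
    exact hh.symm
  · intro h
    rw [run_eq_of_endpt h]
    rfl

/-! ## killed sums -/

/-- words of length `t` avoiding `A` whose loop erasure has `q` steps -/
noncomputable def zA (p : V → V → ℝ) (A : List V) (q t : ℕ) (x : V) : ℝ :=
  W p t x (fun l => ind ((∀ y ∈ l, y ∉ A) ∧ (run [x] l).length = q + 1))

/-- loops of length `L` avoiding `A` -/
noncomputable def gA (p : V → V → ℝ) (A : List V) (L : ℕ) (x : V) : ℝ :=
  W p L x (fun l => ind ((∀ y ∈ l, y ∉ A) ∧ endpt x l = x))

theorem zA_nonneg (p : V → V → ℝ) (hp : ∀ x y, 0 ≤ p x y) (A : List V) (q t : ℕ) (x : V) :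
    0 ≤ zA p A q t x := W_nonneg p hp t x fun _ _ => ind_nonneg _

omit [DecidableEq V] in
theorem gA_nonneg (p : V → V → ℝ) (hp : ∀ x y, 0 ≤ p x y) (A : List V) (L : ℕ) (x : V) :
    0 ≤ gA p A L x := W_nonneg p hp L x fun _ _ => ind_nonneg _

omit [DecidableEq V] in
theorem gA_zero (p : V → V → ℝ) (A : List V) (x : V) : gA p A 0 x = 1 := by
  unfold gA
  rw [W_zero]
  exact ind_of (by simp)

theorem zA_zero (p : V → V → ℝ) (A : List V) (t : ℕ) (x : V) : zA p A 0 t x = gA p A t x := by
  unfold zA gA
  refine W_congr p t x fun l _ => ind_congr ?_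
  rw [zero_add, length_run_eq_one_iff]

/-- the part after the last visit of `x` -/
noncomputable def hA (p : V → V → ℝ) (A : List V) (q r : ℕ) (x : V) : ℝ :=
  ∑ y, p x y * (ind (y ∉ x :: A) * zA p (x :: A) q r y)

theorem hA_nonneg (p : V → V → ℝ) (hp : ∀ x y, 0 ≤ p x y) (A : List V) (q r : ℕ) (x : V) :
    0 ≤ hA p A q r x :=
  sum_nonneg fun y _ => mul_nonneg (hp x y) (mul_nonneg (ind_nonneg _) (zA_nonneg p hp _ _ _ _))

/-- **Decomposition at the last visit of the starting point.** -/
theorem zA_succ (p : V → V → ℝ) (A : List V) (q t : ℕ) (x : V) :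
    zA p A (q + 1) t x = ∑ L ∈ range t, gA p A L x * hA p A q (t - 1 - L) x := by
  have e1 : zA p A (q + 1) t x = W p t x (fun l => ∑ L ∈ range (t + 1),
      ind (endpt x (l.take L) = x ∧ x ∉ l.drop L)
        * ind ((∀ y ∈ l, y ∉ A) ∧ (run [x] l).length = q + 1 + 1)) := by
    unfold zA
    refine W_congr p t x fun l hl => ?_
    rw [← sum_mul]
    have := sum_last_visit x x l
    rw [hl, ind_of (List.mem_cons_self)] at this
    rw [this, one_mul]
  rw [e1, W_sum, sum_range_succ]
  have e2 : W p t x (fun l => ind (endpt x (l.take t) = x ∧ x ∉ l.drop t)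
      * ind ((∀ y ∈ l, y ∉ A) ∧ (run [x] l).length = q + 1 + 1)) = 0 := by
    rw [← W_zero_fun p t x]
    refine W_congr p t x fun l hl => ?_
    rw [← hl, List.take_length]
    by_cases h : endpt x l = x
    · rw [ind_of_not (P := (∀ y ∈ l, y ∉ A) ∧ (run [x] l).length = q + 1 + 1), mul_zero]
      rw [run_eq_of_endpt h]
      simp
    · rw [ind_of_not (fun hh => h hh.1), zero_mul]
  rw [e2, add_zero]
  refine sum_congr rfl fun L hL => ?_
  rw [mem_range] at hL
  obtain ⟨r, hr⟩ : ∃ r, t = L + (r + 1) := ⟨t - L - 1, by omega⟩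
  have hr' : t - 1 - L = r := by omega
  rw [hr']
  conv_lhs => rw [hr, W_add]
  unfold gA
  rw [← W_mul_const]
  refine W_congr p L x fun l1 hl1 => ?_
  by_cases hx : endpt x l1 = x
  · rw [hx]
    unfold hA
    rw [W_succ, mul_sum]
    refine sum_congr rfl fun y _ => ?_
    rw [mul_left_comm]
    congr 1
    unfold zA
    rw [← W_const_mul, ← W_const_mul]
    refine W_congr p r y fun l2 hl2 => ?_
    have t1 : (l1 ++ y :: l2).take L = l1 := by rw [← hl1]; simp
    have t2 : (l1 ++ y :: l2).drop L = y :: l2 := by rw [← hl1]; simp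
    rw [t1, t2, ← ind_and, ← ind_and, ← ind_and]
    refine ind_congr ?_
    have hrun : x ∉ y :: l2 → (run [x] (l1 ++ y :: l2)).length = (run [y] l2).length + 1 := by
      intro hav
      rw [run_append, run_eq_of_endpt hx, length_run_singleton_of_avoid hav, run_cons, step_nil]
    constructor
    · rintro ⟨⟨_, h1⟩, h2, h3⟩
      rw [hrun h1] at h3
      refine ⟨⟨fun z hz => h2 z (List.mem_append_left _ hz), rfl⟩, ?_, ?_, by omega⟩
      · intro hmem
        rcases List.mem_cons.1 hmem with h | h
        · exact h1 (h ▸ List.mem_cons_self)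
        · exact h2 y (List.mem_append_right _ List.mem_cons_self) h
      · intro z hz hmem
        rcases List.mem_cons.1 hmem with h | h
        · exact h1 (h ▸ List.mem_cons_of_mem _ hz)
        · exact h2 z (List.mem_append_right _ (List.mem_cons_of_mem _ hz)) h
    · rintro ⟨⟨h1, _⟩, h2, h3, h4⟩
      have hav : x ∉ y :: l2 := by
        intro hmem
        rcases List.mem_cons.1 hmem with h | h
        · exact h2 (h ▸ List.mem_cons_self)
        · exact h3 x h List.mem_cons_self
      refine ⟨⟨hx, hav⟩, ?_, ?_⟩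
      · intro z hz
        rcases List.mem_append.1 hz with h | h
        · exact h1 z h
        · rcases List.mem_cons.1 h with h | h
          · subst h
            exact fun hm => h2 (List.mem_cons_of_mem _ hm)
          · exact fun hm => h3 z h (List.mem_cons_of_mem _ hm)
      · rw [hrun hav]; omega
  · rw [ind_of_not (P := (∀ y ∈ l1, y ∉ A) ∧ endpt x l1 = x) (fun hh => hx hh.2), zero_mul,
      ← W_zero_fun p (r + 1) (endpt x l1)]
    refine W_congr p (r + 1) _ fun l' _ => ?_
    have t1 : (l1 ++ l').take L = l1 := by rw [← hl1]; simp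
    rw [t1, ind_of_not (P := endpt x l1 = x ∧ x ∉ List.drop L (l1 ++ l')) (fun hh => hx hh.1),
      zero_mul]


/-! ## the duration inequality -/

omit [DecidableEq V] in
theorem gA_le (p : V → V → ℝ) (hp : ∀ x y, 0 ≤ p x y) (A : List V) (L : ℕ) (x : V) :
    gA p A L x ≤ gA p [] L x := by
  refine W_mono p hp L x fun l _ => ind_mono ?_
  rintro ⟨_, h⟩
  exact ⟨by simp, h⟩

/-- truncated mass -/
noncomputable def ZA (p : V → V → ℝ) (A : List V) (q T : ℕ) (x : V) : ℝ :=
  ∑ t ∈ range (T + 1), zA p A q t x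

theorem ZA_nonneg (p : V → V → ℝ) (hp : ∀ x y, 0 ≤ p x y) (A : List V) (q T : ℕ) (x : V) :
    0 ≤ ZA p A q T x := sum_nonneg fun _ _ => zA_nonneg p hp _ _ _ _

theorem sum_conv (T : ℕ) (φ : ℕ → ℕ → ℝ) :
    ∑ t ∈ range (T + 1), ∑ L ∈ range t, φ L (t - 1 - L)
      = ∑ L ∈ range T, ∑ r ∈ range (T - L), φ L r := by
  have e : ∑ t ∈ range (T + 1), ∑ L ∈ range t, φ L (t - 1 - L)
      = ∑ L ∈ range T, ∑ t ∈ Ico (L + 1) (T + 1), φ L (t - 1 - L) := by
    refine Finset.sum_comm' fun a b => ?_
    simp only [mem_range, mem_Ico]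
    omega
  rw [e]
  refine sum_congr rfl fun L hL => ?_
  rw [mem_range] at hL
  rw [Finset.sum_Ico_eq_sum_range]
  have e1 : T + 1 - (L + 1) = T - L := by omega
  rw [e1]
  refine sum_congr rfl fun r _ => ?_
  congr 1
  omega

/-- **Duration bound**: `∑ t · mass(level_t = q) ≤ (q + (q+1) θ) ∑ mass(level_t = q)`. -/
theorem duration_bound (p : V → V → ℝ) (hp : ∀ x y, 0 ≤ p x y) (θ : ℝ) (T0 : ℕ)
    (hθ : ∀ x, ∑ L ∈ range (T0 + 1), (L : ℝ) * gA p [] L x ≤ θ) (q : ℕ) :
    ∀ (T : ℕ), T ≤ T0 → ∀ (A : List V) (x : V),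
      ∑ t ∈ range (T + 1), (t : ℝ) * zA p A q t x ≤ (q + (q + 1) * θ) * ZA p A q T x := by
  have hθA : ∀ T, T ≤ T0 + 1 → ∀ (A : List V) (x : V),
      ∑ L ∈ range T, (L : ℝ) * gA p A L x ≤ θ := by
    intro T hT A x
    refine le_trans ?_ (hθ x)
    refine le_trans (sum_le_sum fun L _ => mul_le_mul_of_nonneg_left (gA_le p hp A L x)
      (Nat.cast_nonneg L)) ?_
    refine sum_le_sum_of_subset_of_nonneg ?_ fun L _ _ =>
      mul_nonneg (Nat.cast_nonneg L) (gA_nonneg p hp _ _ _)
    intro L hL
    rw [mem_range] at hL ⊢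
    omega
  have hθ0 : ∀ x : V, 0 ≤ θ := fun x => le_trans (sum_nonneg fun L _ =>
      mul_nonneg (Nat.cast_nonneg L) (gA_nonneg p hp _ _ _)) (hθ x)
  induction q with
  | zero =>
    intro T hT A x
    have h1 : ∑ t ∈ range (T + 1), (t : ℝ) * zA p A 0 t x ≤ θ := by
      have := hθA (T + 1) (by omega) A x
      refine le_trans (le_of_eq (sum_congr rfl fun t _ => ?_)) this
      rw [zA_zero]
    have h2 : 1 ≤ ZA p A 0 T x := by
      have : zA p A 0 0 x ≤ ZA p A 0 T x :=
        single_le_sum (f := fun t => zA p A 0 t x) (fun t _ => zA_nonneg p hp _ _ _ _)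
          (mem_range.2 (Nat.succ_pos T))
      rwa [zA_zero, gA_zero] at this
    have h3 := hθ0 x
    push_cast
    nlinarith
  | succ q ih =>
    intro T hT A x
    -- expand
    have hz : ∀ t, zA p A (q + 1) t x = ∑ L ∈ range t, gA p A L x * hA p A q (t - 1 - L) x :=
      fun t => zA_succ p A q t x
    have eZ : ZA p A (q + 1) T x = ∑ L ∈ range T, gA p A L x * ∑ r ∈ range (T - L), hA p A q r x := by
      unfold ZA
      simp_rw [hz]
      rw [sum_conv T (fun L r => gA p A L x * hA p A q r x)]
      exact sum_congr rfl fun L _ => (mul_sum _ _ _).symm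
    have eM : ∑ t ∈ range (T + 1), (t : ℝ) * zA p A (q + 1) t x
        = ∑ L ∈ range T, ((L : ℝ) * gA p A L x * ∑ r ∈ range (T - L), hA p A q r x
          + gA p A L x * ∑ r ∈ range (T - L), ((r : ℝ) + 1) * hA p A q r x) := by
      simp_rw [hz]
      have : ∀ t : ℕ, (t : ℝ) * ∑ L ∈ range t, gA p A L x * hA p A q (t - 1 - L) x
          = ∑ L ∈ range t, (((L : ℝ) + ((t - 1 - L : ℕ) : ℝ) + 1)
            * (gA p A L x * hA p A q (t - 1 - L) x)) := by
        intro t
        rw [mul_sum]
        refine sum_congr rfl fun L hL => ?_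
        rw [mem_range] at hL
        congr 1
        have : t = L + (t - 1 - L) + 1 := by omega
        conv_lhs => rw [this]
        push_cast
        ring
      simp_rw [this]
      rw [sum_conv T (fun L r => ((L : ℝ) + (r : ℝ) + 1) * (gA p A L x * hA p A q r x))]
      refine sum_congr rfl fun L _ => ?_
      rw [mul_sum, mul_sum, ← sum_add_distrib]
      refine sum_congr rfl fun r _ => ?_
      ring
    -- the part with the later levels
    have hlate : ∀ R, R ≤ T → ∑ r ∈ range R, ((r : ℝ) + 1) * hA p A q r x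
        ≤ (q + (q + 1) * θ + 1) * ∑ r ∈ range R, hA p A q r x := by
      intro R hR
      rcases Nat.eq_zero_or_pos R with h0 | h0
      · subst h0; simp
      obtain ⟨S, rfl⟩ : ∃ S, R = S + 1 := ⟨R - 1, by omega⟩
      have h1 : ∑ r ∈ range (S + 1), (r : ℝ) * hA p A q r x
          ≤ (q + (q + 1) * θ) * ∑ r ∈ range (S + 1), hA p A q r x := by
        unfold hA
        simp_rw [mul_sum]
        rw [sum_comm]
        conv_rhs => rw [sum_comm]
        refine sum_le_sum fun y _ => ?_
        have h2 := ih S (by omega) (x :: A) y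
        unfold ZA at h2
        have hc : 0 ≤ p x y * ind (y ∉ x :: A) := mul_nonneg (hp x y) (ind_nonneg _)
        have h3 := mul_le_mul_of_nonneg_left h2 hc
        rw [mul_sum, mul_sum] at h3
        calc ∑ r ∈ range (S + 1), (r : ℝ) * (p x y * (ind (y ∉ x :: A) * zA p (x :: A) q r y))
            = ∑ r ∈ range (S + 1), p x y * ind (y ∉ x :: A) * ((r : ℝ) * zA p (x :: A) q r y) :=
              sum_congr rfl fun r _ => by ring
          _ ≤ _ := h3
          _ = ∑ r ∈ range (S + 1), (q + (q + 1) * θ)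
              * (p x y * (ind (y ∉ x :: A) * zA p (x :: A) q r y)) := by
              rw [mul_sum]
              exact sum_congr rfl fun r _ => by ring
      calc ∑ r ∈ range (S + 1), ((r : ℝ) + 1) * hA p A q r x
          = ∑ r ∈ range (S + 1), (r : ℝ) * hA p A q r x + ∑ r ∈ range (S + 1), hA p A q r x := by
            rw [← sum_add_distrib]
            exact sum_congr rfl fun r _ => by ring
        _ ≤ _ := by linarith
    have hhsum0 : ∀ R, 0 ≤ ∑ r ∈ range R, hA p A q r x := fun R =>
      sum_nonneg fun r _ => hA_nonneg p hp _ _ _ _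
    -- part one
    have P1 : ∑ L ∈ range T, (L : ℝ) * gA p A L x * ∑ r ∈ range (T - L), hA p A q r x
        ≤ θ * ZA p A (q + 1) T x := by
      have hb : ∑ L ∈ range T, (L : ℝ) * gA p A L x * ∑ r ∈ range (T - L), hA p A q r x
          ≤ ∑ L ∈ range T, (L : ℝ) * gA p A L x * ∑ r ∈ range T, hA p A q r x := by
        refine sum_le_sum fun L _ => mul_le_mul_of_nonneg_left ?_
          (mul_nonneg (Nat.cast_nonneg L) (gA_nonneg p hp _ _ _))
        refine sum_le_sum_of_subset_of_nonneg ?_ fun r _ _ => hA_nonneg p hp _ _ _ _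
        intro r hr
        rw [mem_range] at hr ⊢
        omega
      refine hb.trans ?_
      rw [← sum_mul]
      have h1 : ∑ r ∈ range T, hA p A q r x ≤ ZA p A (q + 1) T x := by
        rcases Nat.eq_zero_or_pos T with h0 | h0
        · subst h0; simpa using ZA_nonneg p hp A (q + 1) 0 x
        rw [eZ]
        have := single_le_sum (f := fun L => gA p A L x * ∑ r ∈ range (T - L), hA p A q r x)
          (fun L _ => mul_nonneg (gA_nonneg p hp _ _ _) (hhsum0 _)) (mem_range.2 h0)
        simpa [gA_zero] using this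
      have h2 := hθA T (by omega) A x
      calc (∑ L ∈ range T, (L : ℝ) * gA p A L x) * ∑ r ∈ range T, hA p A q r x
          ≤ θ * ∑ r ∈ range T, hA p A q r x := mul_le_mul_of_nonneg_right h2 (hhsum0 T)
        _ ≤ θ * ZA p A (q + 1) T x := mul_le_mul_of_nonneg_left h1 (hθ0 x)
    have P2 : ∑ L ∈ range T, gA p A L x * ∑ r ∈ range (T - L), ((r : ℝ) + 1) * hA p A q r x
        ≤ (q + (q + 1) * θ + 1) * ZA p A (q + 1) T x := by
      rw [eZ, mul_sum]
      refine sum_le_sum fun L _ => ?_
      have := mul_le_mul_of_nonneg_left (hlate (T - L) (Nat.sub_le _ _)) (gA_nonneg p hp A L x)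
      linarith
    rw [eM, sum_add_distrib]
    push_cast
    linarith

end Pool.Agent.helper65.UT
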