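import Mathlib

/-! # MP_5ae64c_pr: abstract final deduction (helper65)

From (a) mean-square smoothness of the height profile, (b) `b ≤ β ≤ B`, (c) convergence of the
finite dimensional distributions of the rescaled volume profile, we deduce convergence of the
finite dimensional distributions of the rescaled height profile. -/

open MeasureTheory Filter Topology
open scoped BoundedContinuousFunction

namespace Pool.Agent.helper65.UT

/-- Lipschitz test functions suffice (for finite-dimensional laws). -/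
theorem tendsto_of_lipschitz {m : ℕ} {Ω : ℕ → Type*} [∀ k, MeasurableSpace (Ω k)]
    (P : ∀ k, Measure (Ω k)) [∀ k, IsProbabilityMeasure (P k)]
    {Ω' : Type*} [MeasurableSpace Ω'] (P' : Measure Ω') [IsProbabilityMeasure P']
    (Y : ∀ k, Ω k → (Fin m → ℝ)) (hY : ∀ k, AEMeasurable (Y k) (P k))
    (Z : Ω' → (Fin m → ℝ)) (hZ : AEMeasurable Z P')
    (h : ∀ g : (Fin m → ℝ) → ℝ, (∃ C : ℝ, ∀ x, |g x| ≤ C) → (∃ L, LipschitzWith L g) →
      Tendsto (fun k => ∫ ω, g (Y k ω) ∂(P k)) atTop (𝓝 (∫ ω, g (Z ω) ∂P')))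
    (g : (Fin m → ℝ) →ᵇ ℝ) :
    Tendsto (fun k => ∫ ω, g (Y k ω) ∂(P k)) atTop (𝓝 (∫ ω, g (Z ω) ∂P')) := by
  let μs : ℕ → ProbabilityMeasure (Fin m → ℝ) := fun k =>
    ⟨(P k).map (Y k), Measure.isProbabilityMeasure_map (hY k)⟩
  let μ : ProbabilityMeasure (Fin m → ℝ) := ⟨P'.map Z, Measure.isProbabilityMeasure_map hZ⟩
  have key : Tendsto μs atTop (𝓝 μ) := by
    rw [tendsto_iff_forall_lipschitz_integral_tendsto]
    rintro f ⟨C, hC⟩ ⟨L, hL⟩
    have hfc : Continuous f := hL.continuous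
    have hb : ∃ C : ℝ, ∀ x, |f x| ≤ C := by
      refine ⟨|f 0| + C, fun x => ?_⟩
      have h1 := hC x 0
      rw [Real.dist_eq] at h1
      have h2 : |f x| ≤ |f x - f 0| + |f 0| := by
        have := abs_add_le (f x - f 0) (f 0)
        simpa using this
      linarith
    have h1 := h f hb ⟨L, hL⟩
    have e1 : ∀ k, ∫ ω, f ω ∂(μs k : Measure (Fin m → ℝ)) = ∫ ω, f (Y k ω) ∂(P k) := by
      intro k
      exact integral_map (hY k) hfc.aestronglyMeasurable
    have e2 : ∫ ω, f ω ∂(μ : Measure (Fin m → ℝ)) = ∫ ω, f (Z ω) ∂P' :=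
      integral_map hZ hfc.aestronglyMeasurable
    simp_rw [e1, e2]
    exact h1
  rw [ProbabilityMeasure.tendsto_iff_forall_integral_tendsto] at key
  have h2 := key g
  have e1 : ∀ k, ∫ ω, g ω ∂(μs k : Measure (Fin m → ℝ)) = ∫ ω, g (Y k ω) ∂(P k) := by
    intro k
    exact integral_map (hY k) g.continuous.aestronglyMeasurable
  have e2 : ∫ ω, g ω ∂(μ : Measure (Fin m → ℝ)) = ∫ ω, g (Z ω) ∂P' :=
    integral_map hZ g.continuous.aestronglyMeasurable
  simp_rw [e1, e2] at h2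
  exact h2

/-- `∫ |f| ≤ √(∫ f²)` on a probability space. -/
theorem integral_abs_le_sqrt {Ω : Type*} [MeasurableSpace Ω] (P : Measure Ω)
    [IsProbabilityMeasure P] (f : Ω → ℝ) (hf : MemLp f 2 P) :
    ∫ ω, |f ω| ∂P ≤ Real.sqrt (∫ ω, (f ω) ^ 2 ∂P) := by
  have hi : Integrable f P := hf.integrable (by norm_num)
  have hi2 : Integrable (fun ω => (f ω) ^ 2) P := hf.integrable_sq
  apply Real.le_sqrt_of_sq_le
  set c := ∫ ω, |f ω| ∂P with hc
  have h0 : 0 ≤ ∫ ω, (|f ω| - c) ^ 2 ∂P := integral_nonneg fun ω => sq_nonneg _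
  have h1 : ∫ ω, (|f ω| - c) ^ 2 ∂P = (∫ ω, (f ω) ^ 2 ∂P) - 2 * c * c + c ^ 2 := by
    have e : ∀ ω, (|f ω| - c) ^ 2 = (f ω) ^ 2 - 2 * c * |f ω| + c ^ 2 := by
      intro ω
      rw [← sq_abs (f ω)]; ring
    simp_rw [e]
    rw [integral_add, integral_sub, integral_const_mul]
    · simp [← hc]
    · exact hi2
    · exact hi.abs.const_mul _
    · exact hi2.sub (hi.abs.const_mul _)
    · exact integrable_const _
  linarith


/-- bounded, measurable, so in `L²` -/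
theorem memLp_two_of_bounds {Ω : Type*} [MeasurableSpace Ω] (P : Measure Ω)
    [IsProbabilityMeasure P] (f : Ω → ℝ) (hf : AEMeasurable f P) (C : ℝ)
    (h : ∀ ω, |f ω| ≤ C) : MemLp f 2 P := by
  refine MemLp.of_bound hf.aestronglyMeasurable C ?_
  filter_upwards with ω
  simpa using h ω

section Window

variable {Ω : Type*} [MeasurableSpace Ω] (P : Measure Ω) [IsProbabilityMeasure P]
  (H : Ω → ℕ → ℝ) (N : ℝ)
  (hHm : ∀ r, AEMeasurable (fun ω => H ω r) P)
  (h0 : ∀ ω r, 0 ≤ H ω r) (hsum : ∀ ω M, ∑ s ∈ Finset.range M, H ω s ≤ N)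

omit [MeasurableSpace Ω] in
include h0 hsum in
theorem H_le (ω : Ω) (r : ℕ) : H ω r ≤ N := by
  refine le_trans ?_ (hsum ω (r + 1))
  exact Finset.single_le_sum (f := fun s => H ω s) (fun s _ => h0 ω s) (Finset.self_mem_range_succ r)

include hHm h0 hsum in
theorem H_memLp (r : ℕ) : MemLp (fun ω => H ω r) 2 P := by
  refine memLp_two_of_bounds P _ (hHm r) N fun ω => ?_
  rw [abs_of_nonneg (h0 ω r)]
  exact H_le H N h0 hsum ω r

include hHm h0 hsum in
/-- first moment bound from smoothness at scale `w` -/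
theorem mean_le (a w : ℕ) (hw : 0 < w) (e : ℝ)
    (hs : ∀ s, a ≤ s → s < a + w → ∫ ω, |H ω a - H ω s| ∂P ≤ e) :
    ∫ ω, H ω a ∂P ≤ N / w + e := by
  have hint : ∀ s, Integrable (fun ω => H ω s) P := fun s =>
    (H_memLp P H N hHm h0 hsum s).integrable (by norm_num)
  have h1 : ∀ s ∈ Finset.Ico a (a + w), ∫ ω, H ω a ∂P ≤ ∫ ω, H ω s ∂P + e := by
    intro s hs'
    rw [Finset.mem_Ico] at hs'
    have := hs s hs'.1 hs'.2
    have h2 : ∫ ω, H ω a ∂P - ∫ ω, H ω s ∂P ≤ ∫ ω, |H ω a - H ω s| ∂P := by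
      rw [← integral_sub (hint a) (hint s)]
      exact integral_mono ((hint a).sub (hint s)) ((hint a).sub (hint s)).abs
        fun ω => le_abs_self _
    linarith
  have h2 := Finset.sum_le_sum h1
  rw [Finset.sum_const, Nat.card_Ico, Finset.sum_add_distrib, Finset.sum_const, Nat.card_Ico,
    ← integral_finsetSum _ (fun s _ => hint s)] at h2
  have h3 : ∫ ω, ∑ s ∈ Finset.Ico a (a + w), H ω s ∂P ≤ N := by
    have : ∫ ω, ∑ s ∈ Finset.Ico a (a + w), H ω s ∂P ≤ ∫ _ω, N ∂P := by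
      refine integral_mono (integrable_finsetSum _ fun s _ => hint s) (integrable_const _) ?_
      intro ω
      refine le_trans ?_ (hsum ω (a + w))
      refine Finset.sum_le_sum_of_subset_of_nonneg ?_ fun s _ _ => h0 ω s
      intro s hs'
      rw [Finset.mem_Ico] at hs'
      exact Finset.mem_range.2 hs'.2
    simpa using this
  have hw' : (0 : ℝ) < w := by exact_mod_cast hw
  have e1 : ((a + w - a : ℕ) : ℝ) = w := by simp
  rw [nsmul_eq_mul, nsmul_eq_mul, e1] at h2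
  rw [← sub_le_iff_le_add, le_div_iff₀ hw']
  linarith

omit [MeasurableSpace Ω] in
/-- deterministic identity for the window average -/
theorem window_identity (ω : Ω) (a b : ℕ) (hab : a ≤ b) (ε β : ℝ) (hε : 0 < ε) (hN : 0 < N) :
    (∑ s ∈ Finset.range (b + 1), H ω s / N - ∑ s ∈ Finset.range (a + 1), H ω s / N) / ε
      - β / Real.sqrt N * H ω a
    = (∑ s ∈ Finset.Ico (a + 1) (b + 1), (H ω s - H ω a)) / (ε * N)
      + H ω a * (((b : ℝ) - a - ε * β * Real.sqrt N) / (ε * N)) := by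
  have e1 : ∑ s ∈ Finset.range (b + 1), H ω s / N - ∑ s ∈ Finset.range (a + 1), H ω s / N
      = (∑ s ∈ Finset.Ico (a + 1) (b + 1), H ω s) / N := by
    rw [Finset.sum_div, Finset.sum_Ico_eq_sub _ (by omega)]
  rw [e1, Finset.sum_sub_distrib, Finset.sum_const, Nat.card_Ico]
  have e2 : ((b + 1 - (a + 1) : ℕ) : ℝ) = (b : ℝ) - a := by
    rw [Nat.add_sub_add_right, Nat.cast_sub hab]
  rw [nsmul_eq_mul, e2]
  generalize (∑ s ∈ Finset.Ico (a + 1) (b + 1), H ω s) = S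
  generalize H ω a = h
  obtain ⟨q, hq, hqN⟩ : ∃ q : ℝ, 0 < q ∧ N = q ^ 2 :=
    ⟨Real.sqrt N, Real.sqrt_pos.2 hN, (Real.sq_sqrt hN.le).symm⟩
  rw [hqN, Real.sqrt_sq hq.le]
  field_simp
  ring

include hHm h0 hsum in
theorem window_le (a b : ℕ) (hab : a ≤ b) (ε β e C : ℝ) (hε : 0 < ε) (hN : 0 < N)
    (hfl : |(b : ℝ) - a - ε * β * Real.sqrt N| ≤ 1)
    (hs : ∀ s, a ≤ s → s ≤ b → ∫ ω, |H ω a - H ω s| ∂P ≤ e)
    (hC : ∫ ω, H ω a ∂P ≤ C) :
    ∫ ω, |(∑ s ∈ Finset.range (b + 1), H ω s / N - ∑ s ∈ Finset.range (a + 1), H ω s / N) / ε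
      - β / Real.sqrt N * H ω a| ∂P ≤ ((b : ℝ) - a) * e / (ε * N) + C / (ε * N) := by
  have hint : ∀ s, Integrable (fun ω => H ω s) P := fun s =>
    (H_memLp P H N hHm h0 hsum s).integrable (by norm_num)
  have hεN : 0 < ε * N := mul_pos hε hN
  simp_rw [window_identity H N _ a b hab ε β hε hN]
  have hI1 : Integrable (fun ω => (∑ s ∈ Finset.Ico (a + 1) (b + 1), |H ω a - H ω s|) / (ε * N)) P :=
    (integrable_finsetSum _ fun s _ => ((hint a).sub (hint s)).abs).div_const _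
  have hI2 : Integrable (fun ω => H ω a / (ε * N)) P := (hint a).div_const _
  have step : ∫ ω, |(∑ s ∈ Finset.Ico (a + 1) (b + 1), (H ω s - H ω a)) / (ε * N)
      + H ω a * (((b : ℝ) - a - ε * β * Real.sqrt N) / (ε * N))| ∂P
      ≤ ∫ ω, ((∑ s ∈ Finset.Ico (a + 1) (b + 1), |H ω a - H ω s|) / (ε * N)
        + H ω a / (ε * N)) ∂P := by
    refine integral_mono ?_ (hI1.add hI2) ?_
    · refine Integrable.abs (Integrable.add ?_ ?_)
      · exact (integrable_finsetSum _ fun s _ => (hint s).sub (hint a)).div_const _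
      · exact (hint a).mul_const _
    · intro ω
      refine (abs_add_le _ _).trans (add_le_add ?_ ?_)
      · rw [abs_div, abs_of_pos hεN]
        gcongr
        refine (Finset.abs_sum_le_sum_abs _ _).trans (Finset.sum_le_sum fun s _ => ?_)
        rw [abs_sub_comm]
      · rw [abs_mul, abs_of_nonneg (h0 ω a), abs_div, abs_of_pos hεN, ← mul_div_assoc]
        gcongr
        have := mul_le_mul_of_nonneg_left hfl (h0 ω a)
        simpa using this
  refine step.trans ?_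
  have hS : ∫ ω, ∑ s ∈ Finset.Ico (a + 1) (b + 1), |H ω a - H ω s| ∂P
      = ∑ s ∈ Finset.Ico (a + 1) (b + 1), ∫ ω, |H ω a - H ω s| ∂P :=
    integral_finsetSum _ fun s _ => ((hint a).sub (hint s)).abs
  rw [integral_add hI1 hI2, integral_div, integral_div, hS]
  have h1 : ∑ s ∈ Finset.Ico (a + 1) (b + 1), ∫ ω, |H ω a - H ω s| ∂P ≤ ((b : ℝ) - a) * e := by
    have : ∑ s ∈ Finset.Ico (a + 1) (b + 1), ∫ ω, |H ω a - H ω s| ∂P
        ≤ ∑ s ∈ Finset.Ico (a + 1) (b + 1), e := by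
      refine Finset.sum_le_sum fun s hs' => ?_
      rw [Finset.mem_Ico] at hs'
      exact hs s (by omega) (by omega)
    rw [Finset.sum_const, Nat.card_Ico, nsmul_eq_mul] at this
    have e2 : ((b + 1 - (a + 1) : ℕ) : ℝ) = (b : ℝ) - a := by
      rw [Nat.add_sub_add_right, Nat.cast_sub hab]
    rwa [e2] at this
  gcongr

end Window

section Main

variable {Ω : ℕ → Type*} [∀ k, MeasurableSpace (Ω k)] (P : ∀ k, Measure (Ω k))
  [∀ k, IsProbabilityMeasure (P k)]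
  (N : ℕ → ℕ) (hN : Tendsto N atTop atTop)
  (β : ℕ → ℝ) (b B : ℝ) (hb : 0 < b) (hβ : ∀ k, b ≤ β k) (hβ' : ∀ k, β k ≤ B)
  (H : ∀ k, Ω k → ℕ → ℝ) (hHm : ∀ k r, AEMeasurable (fun ω => H k ω r) (P k))
  (h0 : ∀ k ω r, 0 ≤ H k ω r) (hsum : ∀ k ω M, ∑ s ∈ Finset.range M, H k ω s ≤ N k)
  (hsm : ∀ A : ℝ, 0 < A → ∀ ε : ℝ, 0 < ε → ∃ δ : ℝ, 0 < δ ∧ ∀ᶠ k in atTop,
    ∀ r r' : ℕ, (r : ℝ) ≤ A * Real.sqrt (N k) → (r' : ℝ) ≤ A * Real.sqrt (N k) →
      |(r : ℝ) - r'| ≤ δ * Real.sqrt (N k) →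
      ∫ ω, (H k ω r - H k ω r') ^ 2 ∂(P k) ≤ ε * N k)

include hN in
theorem eventually_sqrt_ge (c : ℝ) : ∀ᶠ k in atTop, c ≤ Real.sqrt (N k) := by
  have h1 : Tendsto (fun k => (N k : ℝ)) atTop atTop :=
    tendsto_natCast_atTop_atTop.comp hN
  have h2 : Tendsto (fun k => Real.sqrt (N k)) atTop atTop :=
    Real.tendsto_sqrt_atTop.comp h1
  exact h2.eventually_ge_atTop c

include hN hb hβ hβ' hHm h0 hsum hsm in
theorem first_term (r : ℝ) (hr : 0 < r) (η : ℝ) (hη : 0 < η) :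
    ∀ᶠ ε in 𝓝[>] (0 : ℝ), ∀ᶠ k in atTop,
      ∫ ω, |(∑ s ∈ Finset.range (⌊(r + ε) * β k * Real.sqrt (N k)⌋₊ + 1), H k ω s / N k
          - ∑ s ∈ Finset.range (⌊r * β k * Real.sqrt (N k)⌋₊ + 1), H k ω s / N k) / ε
        - β k / Real.sqrt (N k) * H k ω ⌊r * β k * Real.sqrt (N k)⌋₊| ∂(P k) ≤ η := by
  have hB : 0 < B := lt_of_lt_of_le hb ((hβ 0).trans (hβ' 0))
  set A : ℝ := (r + 1) * B + 1 with hA
  have hA0 : 0 < A := by positivity
  set e0 : ℝ := (η / (2 * B)) ^ 2 with he0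
  have he0p : 0 < e0 := by positivity
  obtain ⟨δ0, hδ0, hev⟩ := hsm A hA0 e0 he0p
  set δ : ℝ := min δ0 1 with hδ
  have hδp : 0 < δ := lt_min hδ0 one_pos
  have hδ1 : δ ≤ 1 := min_le_right _ _
  have hδ2 : δ ≤ δ0 := min_le_left _ _
  have hε : ∀ᶠ ε in 𝓝[>] (0 : ℝ), 0 < ε ∧ ε < min 1 (δ / (2 * B)) := by
    have h1 : ∀ᶠ ε in 𝓝[>] (0 : ℝ), ε ∈ Set.Ioo 0 (min 1 (δ / (2 * B))) :=
      Ioo_mem_nhdsGT (lt_min one_pos (by positivity))
    filter_upwards [h1] with ε h using h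
  filter_upwards [hε] with ε hε'
  obtain ⟨hε0, hε1⟩ := hε'
  have hε1' : ε < 1 := lt_of_lt_of_le hε1 (min_le_left _ _)
  have hε2' : ε * B ≤ δ / 2 := by
    have : ε < δ / (2 * B) := lt_of_lt_of_le hε1 (min_le_right _ _)
    rw [lt_div_iff₀ (by positivity)] at this
    linarith
  filter_upwards [hev, eventually_sqrt_ge N hN (4 / δ), eventually_sqrt_ge N hN 1,
    eventually_sqrt_ge N hN (2 * (η / B + 4 / δ) / (ε * η))] with k hk hk1 hk2 hk3
  set q : ℝ := Real.sqrt (N k) with hq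
  have hqp : 0 < q := lt_of_lt_of_le one_pos hk2
  have hqq : q * q = N k := Real.mul_self_sqrt (Nat.cast_nonneg _)
  have hNp : (0 : ℝ) < N k := by rw [← hqq]; positivity
  have hβp : 0 < β k := lt_of_lt_of_le hb (hβ k)
  set a : ℕ := ⌊r * β k * q⌋₊ with ha
  set a' : ℕ := ⌊(r + ε) * β k * q⌋₊ with ha'
  have hx : 0 ≤ r * β k * q := by positivity
  have hx' : 0 ≤ (r + ε) * β k * q := by positivity
  have hxx : r * β k * q ≤ (r + ε) * β k * q := by
    have : 0 ≤ ε * β k * q := by positivity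
    linarith
  have haa : a ≤ a' := Nat.floor_le_floor hxx
  have f1 : (a : ℝ) ≤ r * β k * q := Nat.floor_le hx
  have f2 : r * β k * q < a + 1 := Nat.lt_floor_add_one _
  have f3 : (a' : ℝ) ≤ (r + ε) * β k * q := Nat.floor_le hx'
  have f4 : (r + ε) * β k * q < a' + 1 := Nat.lt_floor_add_one _
  have hfl : |(a' : ℝ) - a - ε * β k * q| ≤ 1 := by
    rw [abs_le]
    constructor <;> linarith
  -- range of the indices
  have hβB : β k ≤ B := hβ' k
  have g1 : (r + ε) * β k * q ≤ (r + 1) * B * q := by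
    gcongr
  have g2 : (a' : ℝ) ≤ (r + 1) * B * q := f3.trans g1
  have haa' : (a : ℝ) ≤ a' := by exact_mod_cast haa
  have g3 : (a' : ℝ) ≤ A * q := by
    rw [hA]; linarith
  have g4 : ε * β k * q ≤ δ / 2 * q := by
    have : ε * β k ≤ ε * B := by gcongr
    have h2 : ε * β k ≤ δ / 2 := this.trans hε2'
    gcongr
  have g5 : 4 ≤ δ * q := by
    rw [div_le_iff₀ hδp] at hk1
    linarith
  -- smoothness
  have hsq : Real.sqrt (e0 * N k) = η / (2 * B) * q := by
    rw [Real.sqrt_mul he0p.le, he0, Real.sqrt_sq (by positivity)]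
  have hsm1 : ∀ s : ℕ, a ≤ s → (s : ℝ) ≤ A * q → (s : ℝ) - a ≤ δ * q →
      ∫ ω, |H k ω a - H k ω s| ∂(P k) ≤ η / (2 * B) * q := by
    intro s hs1 hs2 hs3
    have hs1' : (a : ℝ) ≤ s := by exact_mod_cast hs1
    have hmem : MemLp (fun ω => H k ω a - H k ω s) 2 (P k) :=
      (H_memLp (P k) (H k) (N k) (hHm k) (h0 k) (hsum k) a).sub
        (H_memLp (P k) (H k) (N k) (hHm k) (h0 k) (hsum k) s)
    have h1 := integral_abs_le_sqrt (P k) (fun ω => H k ω a - H k ω s) hmem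
    refine h1.trans ?_
    rw [← hsq]
    apply Real.sqrt_le_sqrt
    apply hk a s (by linarith) hs2
    rw [abs_sub_comm, abs_of_nonneg (by linarith)]
    exact hs3.trans (by gcongr)
  -- mean bound
  set w : ℕ := ⌊δ / 2 * q⌋₊ with hw
  have hw0 : 0 ≤ δ / 2 * q := by positivity
  have hw1 : (w : ℝ) ≤ δ / 2 * q := Nat.floor_le hw0
  have hw2 : δ / 2 * q < w + 1 := Nat.lt_floor_add_one _
  have hw3 : δ / 4 * q ≤ w := by linarith
  have hwp : (0 : ℝ) < w := lt_of_lt_of_le (by positivity) hw3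
  have hwp' : 0 < w := by exact_mod_cast hwp
  have hmean : ∫ ω, H k ω a ∂(P k) ≤ (4 / δ + η / (2 * B)) * q := by
    have h1 := mean_le (P k) (H k) (N k) (hHm k) (h0 k) (hsum k) a w hwp' (η / (2 * B) * q) ?_
    · refine h1.trans ?_
      have h2 : (N k : ℝ) / w ≤ 4 / δ * q := by
        rw [div_le_iff₀ hwp, ← hqq]
        have : 4 / δ * q * (δ / 4 * q) ≤ 4 / δ * q * w := by gcongr
        have e : 4 / δ * q * (δ / 4 * q) = q * q := by field_simp
        linarith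
      linarith
    · intro s hs1 hs2
      have hs2' : (s : ℝ) ≤ a + w := by exact_mod_cast hs2.le
      refine hsm1 s hs1 ?_ ?_
      · rw [hA]
        have hδq : δ * q ≤ 1 * q := mul_le_mul_of_nonneg_right hδ1 hqp.le
        linarith
      · linarith
  have hfin := window_le (P k) (H k) (N k) (hHm k) (h0 k) (hsum k) a a' haa ε (β k)
    (η / (2 * B) * q) ((4 / δ + η / (2 * B)) * q) hε0 hNp hfl (by
      intro s hs1 hs2
      have hs2' : (s : ℝ) ≤ a' := by exact_mod_cast hs2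
      refine hsm1 s hs1 (hs2'.trans g3) ?_
      rw [abs_le] at hfl
      linarith [hfl.2]) hmean
  refine hfin.trans ?_
  rw [abs_le] at hfl
  have k1 : (a' : ℝ) - a ≤ ε * B * q + 1 := by
    have : ε * β k * q ≤ ε * B * q := by gcongr
    linarith [hfl.2]
  have k2 : ((a' : ℝ) - a) * (η / (2 * B) * q) / (ε * N k)
      ≤ (ε * B * q + 1) * (η / (2 * B) * q) / (ε * N k) := by
    gcongr
  refine (add_le_add k2 le_rfl).trans ?_
  rw [← hqq]
  have e1 : (ε * B * q + 1) * (η / (2 * B) * q) / (ε * (q * q))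
      + (4 / δ + η / (2 * B)) * q / (ε * (q * q)) = η / 2 + (η / B + 4 / δ) / (ε * q) := by
    field_simp
    ring
  rw [e1]
  have e2 : (η / B + 4 / δ) / (ε * q) ≤ η / 2 := by
    rw [div_le_iff₀ (by positivity)] at hk3 ⊢
    linarith
  linarith


section Limit

variable {Ω' : Type*} [MeasurableSpace Ω'] (P' : Measure Ω') [IsProbabilityMeasure P']
  (V : Ω' → ℝ → ℝ) (ℓ : Ω' → ℝ → ℝ)
  (hVm : ∀ r, 0 < r → AEMeasurable (fun ω => V ω r) P')
  (hder : ∀ r, 0 < r → ∀ᵐ ω ∂P',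
    Tendsto (fun ε : ℝ => (V ω (r + ε) - V ω r) / ε) (𝓝[>] 0) (𝓝 (ℓ ω r)))

omit [IsProbabilityMeasure P'] in
include hVm hder in
theorem limit_aemeasurable (r : ℝ) (hr : 0 < r) : AEMeasurable (fun ω => ℓ ω r) P' := by
  have hseq : Tendsto (fun n : ℕ => (1 : ℝ) / (n + 1)) atTop (𝓝[>] 0) := by
    rw [tendsto_nhdsWithin_iff]
    refine ⟨tendsto_one_div_add_atTop_nhds_zero_nat, ?_⟩
    filter_upwards with n
    show (0 : ℝ) < 1 / (n + 1)
    positivity
  refine aemeasurable_of_tendsto_metrizable_ae atTop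
    (f := fun (n : ℕ) ω => (V ω (r + 1 / (n + 1)) - V ω r) / (1 / (n + 1))) ?_ ?_
  · intro n
    exact ((hVm _ (by positivity)).sub (hVm r hr)).div_const _
  · filter_upwards [hder r hr] with ω hω
    exact hω.comp hseq

include hVm hder in
theorem third_term {m : ℕ} (r : Fin m → ℝ) (hr : ∀ i, 0 < r i) (g : (Fin m → ℝ) → ℝ)
    (C : ℝ) (hC : ∀ x, |g x| ≤ C) (hg : Continuous g) :
    Tendsto (fun ε : ℝ => ∫ ω, g (fun i => (V ω (r i + ε) - V ω (r i)) / ε) ∂P') (𝓝[>] 0)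
      (𝓝 (∫ ω, g (fun i => ℓ ω (r i)) ∂P')) := by
  refine tendsto_integral_filter_of_dominated_convergence (fun _ => C) ?_ ?_
    (integrable_const _) ?_
  · filter_upwards [self_mem_nhdsWithin] with ε hε
    have hε' : (0 : ℝ) < ε := hε
    refine AEMeasurable.aestronglyMeasurable (hg.measurable.comp_aemeasurable ?_)
    refine aemeasurable_pi_lambda _ fun i => ?_
    exact ((hVm _ (by have := hr i; positivity)).sub (hVm _ (hr i))).div_const _
  · filter_upwards with ε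
    filter_upwards with ω
    simpa using hC _
  · have h1 : ∀ᵐ ω ∂P', ∀ i, Tendsto (fun ε : ℝ => (V ω (r i + ε) - V ω (r i)) / ε) (𝓝[>] 0)
        (𝓝 (ℓ ω (r i))) := by
      rw [ae_all_iff]
      exact fun i => hder (r i) (hr i)
    filter_upwards [h1] with ω hω
    exact (hg.tendsto _).comp (tendsto_pi_nhds.2 hω)

end Limit

variable {Ω' : Type*} [MeasurableSpace Ω'] (P' : Measure Ω') [IsProbabilityMeasure P']
  (V : Ω' → ℝ → ℝ) (ℓ : Ω' → ℝ → ℝ)
  (hVm : ∀ r, 0 < r → AEMeasurable (fun ω => V ω r) P')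
  (hder : ∀ r, 0 < r → ∀ᵐ ω ∂P',
    Tendsto (fun ε : ℝ => (V ω (r + ε) - V ω r) / ε) (𝓝[>] 0) (𝓝 (ℓ ω r)))
  (hconv : ∀ (m : ℕ) (r : Fin m → ℝ), (∀ i, 0 < r i) → ∀ g : (Fin m → ℝ) →ᵇ ℝ,
    Tendsto (fun k => ∫ ω, g (fun i =>
      ∑ s ∈ Finset.range (⌊r i * β k * Real.sqrt (N k)⌋₊ + 1), H k ω s / N k) ∂(P k)) atTop
      (𝓝 (∫ ω, g (fun i => V ω (r i)) ∂P')))

omit [∀ k, IsProbabilityMeasure (P k)] [IsProbabilityMeasure P'] in
include hconv in
/-- the second term: convergence of difference quotients for fixed `ε` -/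
theorem second_term {m : ℕ} (r : Fin m → ℝ) (hr : ∀ i, 0 < r i) (g : (Fin m → ℝ) → ℝ)
    (C : ℝ) (hC : ∀ x, |g x| ≤ C) (hg : Continuous g) (ε : ℝ) (hε : 0 < ε) :
    Tendsto (fun k => ∫ ω, g (fun i =>
      (∑ s ∈ Finset.range (⌊(r i + ε) * β k * Real.sqrt (N k)⌋₊ + 1), H k ω s / N k
      - ∑ s ∈ Finset.range (⌊r i * β k * Real.sqrt (N k)⌋₊ + 1), H k ω s / N k) / ε) ∂(P k)) atTop
      (𝓝 (∫ ω, g (fun i => (V ω (r i + ε) - V ω (r i)) / ε) ∂P')) := by
  let r' : Fin (m + m) → ℝ := Fin.append r (fun i => r i + ε)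
  have hr' : ∀ j, 0 < r' j := by
    intro j
    refine Fin.addCases (fun i => ?_) (fun i => ?_) j
    · simpa [r'] using hr i
    · have := hr i
      simp only [r', Fin.append_right]
      positivity
  let φ : (Fin (m + m) → ℝ) → (Fin m → ℝ) := fun v i => (v (Fin.natAdd m i) - v (Fin.castAdd m i)) / ε
  have hφ : Continuous φ := by
    refine continuous_pi fun i => ?_
    have c1 : Continuous fun v : Fin (m + m) → ℝ => v (Fin.natAdd m i) := continuous_apply _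
    have c2 : Continuous fun v : Fin (m + m) → ℝ => v (Fin.castAdd m i) := continuous_apply _
    exact (c1.sub c2).div_const _
  let G : (Fin (m + m) → ℝ) →ᵇ ℝ :=
    BoundedContinuousFunction.ofNormedAddCommGroup (fun v => g (φ v)) (hg.comp hφ) C
      (fun v => by simpa using hC (φ v))
  have h1 := hconv (m + m) r' hr' G
  simp only [G, BoundedContinuousFunction.coe_ofNormedAddCommGroup, φ, r', Fin.append_left,
    Fin.append_right] at h1
  exact h1

include hN hb hβ hβ' hHm h0 hsum hsm hVm hder hconv in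
/-- **Final deduction** (abstract form): mean square smoothness of the height profile and
convergence of the volume profile imply convergence of the height profile (f.d.d.). -/
theorem fdd_of_smooth (m : ℕ) (r : Fin m → ℝ) (hr : ∀ i, 0 < r i) (g : (Fin m → ℝ) →ᵇ ℝ) :
    Tendsto (fun k => ∫ ω, g (fun i =>
      β k / Real.sqrt (N k) * H k ω ⌊r i * β k * Real.sqrt (N k)⌋₊) ∂(P k)) atTop
      (𝓝 (∫ ω, g (fun i => ℓ ω (r i)) ∂P')) := by
  let Y : ∀ k, Ω k → (Fin m → ℝ) := fun k ω i =>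
    β k / Real.sqrt (N k) * H k ω ⌊r i * β k * Real.sqrt (N k)⌋₊
  let Z : Ω' → (Fin m → ℝ) := fun ω i => ℓ ω (r i)
  have hYm : ∀ k, AEMeasurable (Y k) (P k) := fun k =>
    aemeasurable_pi_lambda _ fun i => (hHm k _).const_mul _
  have hZm : AEMeasurable Z P' :=
    aemeasurable_pi_lambda _ fun i => limit_aemeasurable P' V ℓ hVm hder (r i) (hr i)
  refine tendsto_of_lipschitz P P' Y hYm Z hZm ?_ g
  clear g
  rintro g ⟨C, hC⟩ ⟨L, hL⟩
  have hgc : Continuous g := hL.continuous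
  rw [Metric.tendsto_atTop]
  intro η hη
  let X : ℝ → ∀ k, Ω k → (Fin m → ℝ) := fun ε k ω i =>
    (∑ s ∈ Finset.range (⌊(r i + ε) * β k * Real.sqrt (N k)⌋₊ + 1), H k ω s / N k
      - ∑ s ∈ Finset.range (⌊r i * β k * Real.sqrt (N k)⌋₊ + 1), H k ω s / N k) / ε
  have hXm : ∀ ε k, AEMeasurable (X ε k) (P k) := by
    intro ε k
    refine aemeasurable_pi_lambda _ fun i => ?_
    have h1 : ∀ n : ℕ, AEMeasurable (fun ω => ∑ s ∈ Finset.range n, H k ω s / N k) (P k) := by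
      intro n
      refine Finset.aemeasurable_fun_sum _ fun s _ => ?_
      exact (hHm k s).div_const _
    exact ((h1 _).sub (h1 _)).div_const _
  have hIg : ∀ k (W : Ω k → (Fin m → ℝ)), AEMeasurable W (P k) →
      Integrable (fun ω => g (W ω)) (P k) := by
    intro k W hW
    refine Integrable.of_bound (hgc.measurable.comp_aemeasurable hW).aestronglyMeasurable C ?_
    filter_upwards with ω
    simpa using hC _
  -- difference bounds
  have hIH : ∀ k s, Integrable (fun ω => H k ω s) (P k) := fun k s =>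
    (H_memLp (P k) (H k) (N k) (hHm k) (h0 k) (hsum k) s).integrable (by norm_num)
  have hIX : ∀ ε k i, Integrable (fun ω => X ε k ω i) (P k) := by
    intro ε k i
    have h1 : ∀ n : ℕ, Integrable (fun ω => ∑ s ∈ Finset.range n, H k ω s / N k) (P k) :=
      fun n => integrable_finsetSum _ fun s _ => (hIH k s).div_const _
    exact ((h1 _).sub (h1 _)).div_const _
  have hIY : ∀ k i, Integrable (fun ω => Y k ω i) (P k) := fun k i => (hIH k _).const_mul _
  have hdiff : ∀ ε k, |∫ ω, g (Y k ω) ∂(P k) - ∫ ω, g (X ε k ω) ∂(P k)|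
      ≤ L * ∑ i, ∫ ω, |X ε k ω i - Y k ω i| ∂(P k) := by
    intro ε k
    rw [← integral_sub (hIg k _ (hYm k)) (hIg k _ (hXm ε k))]
    refine (abs_integral_le_integral_abs).trans ?_
    have e : (L : ℝ) * ∑ i, ∫ ω, |X ε k ω i - Y k ω i| ∂(P k)
        = ∫ ω, L * ∑ i, |X ε k ω i - Y k ω i| ∂(P k) := by
      have e' : ∫ ω, ∑ i, |X ε k ω i - Y k ω i| ∂(P k) = ∑ i, ∫ ω, |X ε k ω i - Y k ω i| ∂(P k) :=
        integral_finsetSum _ fun i _ => ((hIX ε k i).sub (hIY k i)).abs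
      rw [integral_const_mul, e']
    rw [e]
    refine integral_mono ((hIg k _ (hYm k)).sub (hIg k _ (hXm ε k))).abs ?_ ?_
    · exact (integrable_finsetSum _ fun i _ => ((hIX ε k i).sub (hIY k i)).abs).const_mul _
    · intro ω
      have h1 := hL.dist_le_mul (Y k ω) (X ε k ω)
      rw [Real.dist_eq] at h1
      refine h1.trans ?_
      have h2 : dist (Y k ω) (X ε k ω) ≤ ∑ i, |X ε k ω i - Y k ω i| := by
        rw [dist_pi_le_iff (Finset.sum_nonneg fun i _ => abs_nonneg _)]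
        intro i
        rw [dist_comm, Real.dist_eq]
        exact Finset.single_le_sum (f := fun i => |X ε k ω i - Y k ω i|)
          (fun j _ => abs_nonneg _) (Finset.mem_univ i)
      exact mul_le_mul_of_nonneg_left h2 L.coe_nonneg
  -- the first term is small
  set η' : ℝ := η / (4 * (L + 1) * (m + 1)) with hη'
  have hη'p : 0 < η' := by positivity
  have F1 : ∀ᶠ ε in 𝓝[>] (0 : ℝ), ∀ᶠ k in atTop, ∀ i : Fin m,
      ∫ ω, |X ε k ω i - Y k ω i| ∂(P k) ≤ η' := by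
    have h1 : ∀ i : Fin m, ∀ᶠ ε in 𝓝[>] (0 : ℝ), ∀ᶠ k in atTop,
        ∫ ω, |X ε k ω i - Y k ω i| ∂(P k) ≤ η' := fun i =>
      first_term P N hN β b B hb hβ hβ' H hHm h0 hsum hsm (r i) (hr i) η' hη'p
    have h2 := eventually_all.2 h1
    filter_upwards [h2] with ε hε
    exact eventually_all.2 hε
  have F3 := (Metric.tendsto_nhds.1 (third_term P' V ℓ hVm hder r hr g C hC hgc)) (η / 4)
    (by positivity)
  obtain ⟨ε, ⟨hε1, hε3⟩, hε0⟩ := ((F1.and F3).and self_mem_nhdsWithin).exists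
  have hε0' : (0 : ℝ) < ε := hε0
  have F2 := (Metric.tendsto_nhds.1 (second_term P N β H P' V hconv r hr g C hC hgc ε hε0'))
    (η / 4) (by positivity)
  obtain ⟨k0, hk0⟩ := eventually_atTop.1 (hε1.and F2)
  refine ⟨k0, fun k hk => ?_⟩
  obtain ⟨hk1, hk2⟩ := hk0 k hk
  rw [Real.dist_eq] at hk2 hε3 ⊢
  have hk1' : (L : ℝ) * ∑ i, ∫ ω, |X ε k ω i - Y k ω i| ∂(P k) ≤ η / 4 := by
    have h1 : ∑ i, ∫ ω, |X ε k ω i - Y k ω i| ∂(P k) ≤ m * η' := by
      have := Finset.sum_le_sum (fun i (_ : i ∈ (Finset.univ : Finset (Fin m))) => hk1 i)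
      simpa using this
    have h2 : (L : ℝ) * (m * η') ≤ η / 4 := by
      rw [hη']
      have hL0 : (0 : ℝ) ≤ L := L.coe_nonneg
      have hm0 : (0 : ℝ) ≤ m := Nat.cast_nonneg _
      have e : (L : ℝ) * (m * (η / (4 * (L + 1) * (m + 1))))
        = (η / 4) * ((L / (L + 1)) * (m / (m + 1))) := by
        field_simp
      rw [e]
      have a1 : (L : ℝ) / (L + 1) ≤ 1 := by rw [div_le_one (by positivity)]; linarith
      have a2 : (m : ℝ) / (m + 1) ≤ 1 := by rw [div_le_one (by positivity)]; linarith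
      have a3 : (L : ℝ) / (L + 1) * (m / (m + 1)) ≤ 1 :=
        mul_le_one₀ a1 (by positivity) a2
      have a4 := mul_le_mul_of_nonneg_left a3 (by positivity : (0 : ℝ) ≤ η / 4)
      linarith
    exact (mul_le_mul_of_nonneg_left h1 L.coe_nonneg).trans h2
  have hd := hdiff ε k
  have t1 : |∫ ω, g (Y k ω) ∂(P k) - ∫ ω, g (X ε k ω) ∂(P k)| ≤ η / 4 := hd.trans hk1'
  have t2 : |∫ ω, g (X ε k ω) ∂(P k)
      - ∫ ω, g (fun i => (V ω (r i + ε) - V ω (r i)) / ε) ∂P'| < η / 4 := hk2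
  have t3 : |∫ ω, g (fun i => (V ω (r i + ε) - V ω (r i)) / ε) ∂P' - ∫ ω, g (Z ω) ∂P'| < η / 4 :=
    hε3
  rw [abs_le] at t1
  rw [abs_lt] at t2 t3
  rw [abs_lt]
  constructor <;> linarith [t1.1, t1.2, t2.1, t2.2, t3.1, t3.2]

end Main

end Pool.Agent.helper65.UT
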