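import Mathlib

/-! # MP_5ae64c_pr: loop erasure path states (lists, head = tip) and the level split -/

namespace Pool.Agent.helper65.UT

variable {V : Type*} [DecidableEq V]

/-- one step of chronological loop erasure on path states -/
def step (γ : List V) (y : V) : List V :=
  if y ∈ γ then γ.dropWhile (fun x => decide (x ≠ y)) else y :: γ

/-- run the loop erasure along a word -/
def run (γ : List V) (l : List V) : List V := l.foldl step γ

@[simp] theorem run_nil (γ : List V) : run γ [] = γ := rfl

@[simp] theorem run_cons (γ : List V) (y : V) (l : List V) : run γ (y :: l) = run (step γ y) l := rfl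

theorem run_append (γ l l' : List V) : run γ (l ++ l') = run (run γ l) l' := by
  simp [run, List.foldl_append]

theorem run_concat (γ l : List V) (y : V) : run γ (l ++ [y]) = step (run γ l) y := by
  simp [run_append]

theorem step_of_mem {γ : List V} {y : V} (h : y ∈ γ) :
    step γ y = γ.dropWhile (fun x => decide (x ≠ y)) := if_pos h

theorem step_of_not_mem {γ : List V} {y : V} (h : y ∉ γ) : step γ y = y :: γ := if_neg h

theorem step_nil (y : V) : step ([] : List V) y = [y] := rfl

theorem step_suffix_of_mem {γ : List V} {y : V} (h : y ∈ γ) : step γ y <:+ γ := by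
  rw [step_of_mem h]; exact List.dropWhile_suffix _

/-- the new state starts with the new vertex -/
theorem step_eq_cons (γ : List V) (y : V) : ∃ δ, step γ y = y :: δ := by
  by_cases h : y ∈ γ
  · rw [step_of_mem h]
    induction γ with
    | nil => simp at h
    | cons a γ ih =>
      by_cases ha : a = y
      · subst ha; exact ⟨γ, by simp⟩
      · have : y ∈ γ := by
          rcases List.mem_cons.1 h with h | h
          · exact absurd h.symm ha
          · exact h
        obtain ⟨δ, hδ⟩ := ih this
        refine ⟨δ, ?_⟩
        rw [List.dropWhile_cons_of_pos (by simpa using ha)]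
        exact hδ
  · exact ⟨γ, step_of_not_mem h⟩

theorem step_ne_nil (γ : List V) (y : V) : step γ y ≠ [] := by
  obtain ⟨δ, h⟩ := step_eq_cons γ y
  rw [h]; simp

theorem length_step_le (γ : List V) (y : V) : (step γ y).length ≤ γ.length + 1 := by
  by_cases h : y ∈ γ
  · exact ((step_suffix_of_mem h).length_le).trans (Nat.le_succ _)
  · rw [step_of_not_mem h]; simp

theorem length_step_of_mem {γ : List V} {y : V} (h : y ∈ γ) : (step γ y).length ≤ γ.length :=
  (step_suffix_of_mem h).length_le

theorem nodup_step {γ : List V} (hγ : γ.Nodup) (y : V) : (step γ y).Nodup := by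
  by_cases h : y ∈ γ
  · exact hγ.sublist (step_suffix_of_mem h).sublist
  · rw [step_of_not_mem h]; exact List.nodup_cons.2 ⟨h, hγ⟩

theorem nodup_run {γ : List V} (hγ : γ.Nodup) (l : List V) : (run γ l).Nodup := by
  induction l generalizing γ with
  | nil => exact hγ
  | cons y l ih => exact ih (nodup_step hγ y)

/-- appending a piece that is not visited -/
theorem step_append {γ δ : List V} {y : V} (h : y ∉ δ) : step (γ ++ δ) y = step γ y ++ δ := by
  by_cases hγ : y ∈ γ
  · rw [step_of_mem hγ, step_of_mem (List.mem_append_left _ hγ)]
    induction γ with
    | nil => simp at hγ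
    | cons a γ ih =>
      by_cases ha : a = y
      · subst ha; simp
      · have : y ∈ γ := by
          rcases List.mem_cons.1 hγ with h | h
          · exact absurd h.symm ha
          · exact h
        rw [List.cons_append, List.dropWhile_cons_of_pos (by simpa using ha),
          List.dropWhile_cons_of_pos (by simpa using ha)]
        exact ih this
  · rw [step_of_not_mem hγ, step_of_not_mem (by simp [hγ, h])]
    rfl

theorem run_append_right {γ δ : List V} {l : List V} (h : ∀ y ∈ l, y ∉ δ) :
    run (γ ++ δ) l = run γ l ++ δ := by
  induction l generalizing γ with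
  | nil => rfl
  | cons y l ih =>
    rw [run_cons, run_cons, step_append (h y List.mem_cons_self)]
    exact ih fun z hz => h z (List.mem_cons_of_mem _ hz)

theorem run_of_avoid {δ : List V} {l : List V} (h : ∀ y ∈ l, y ∉ δ) :
    run δ l = run [] l ++ δ := by
  have := run_append_right (γ := []) h
  simpa using this

/-- hitting a vertex of the bottom part truncates below it -/
theorem length_step_append_of_mem {γ δ : List V} {y : V} (hd : (γ ++ δ).Nodup) (h : y ∈ δ) :
    (step (γ ++ δ) y).length ≤ δ.length := by
  rw [step_of_mem (List.mem_append_right _ h)]
  have hnot : ∀ a ∈ γ, a ≠ y := by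
    intro a ha hay
    subst hay
    exact (List.nodup_append.1 hd).2.2 a ha a h rfl
  have : (γ ++ δ).dropWhile (fun x => decide (x ≠ y)) = δ.dropWhile (fun x => decide (x ≠ y)) := by
    clear hd
    induction γ with
    | nil => rfl
    | cons a γ ih =>
      rw [List.cons_append, List.dropWhile_cons_of_pos (by simpa using hnot a List.mem_cons_self)]
      exact ih fun b hb => hnot b (List.mem_cons_of_mem _ hb)
  rw [this]
  exact (List.dropWhile_suffix _).length_le

/-- **Level split**: at the last time the state has at most `q` vertices it has exactly `q`, and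
afterwards the word avoids it. -/
theorem exists_split {γ : List V} (hγ : γ.Nodup) (q : ℕ) (hq : γ.length ≤ q) (l : List V)
    (hl : q ≤ (run γ l).length) :
    ∃ l1 l2, l = l1 ++ l2 ∧ (run γ l1).length = q ∧ ∀ y ∈ l2, y ∉ run γ l1 := by
  induction l using List.reverseRecOn with
  | nil =>
    refine ⟨[], [], rfl, ?_, by simp⟩
    exact le_antisymm hq hl
  | append_singleton l y ih =>
    rcases hl.lt_or_eq with hlt | heq
    · rw [run_concat] at hlt
      have h1 : q ≤ (run γ l).length := by
        have := length_step_le (run γ l) y
        omega
      obtain ⟨l1, l2, hll, hlen, hav⟩ := ih h1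
      refine ⟨l1, l2 ++ [y], by rw [hll, List.append_assoc], hlen, ?_⟩
      intro z hz
      rcases List.mem_append.1 hz with hz | hz
      · exact hav z hz
      · rw [List.mem_singleton] at hz
        subst hz
        intro hmem
        have e : run γ l = run [] l2 ++ run γ l1 := by
          rw [hll, run_append]; exact run_of_avoid hav
        have hnd : (run [] l2 ++ run γ l1).Nodup := e ▸ nodup_run hγ l
        have h2 := length_step_append_of_mem hnd hmem
        rw [← e] at h2
        omega
    · exact ⟨l ++ [y], [], by simp, heq.symm, by simp⟩

/-- the level of the second piece -/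
theorem length_run_split {γ l1 l2 : List V} (hav : ∀ y ∈ l2, y ∉ run γ l1) :
    (run γ (l1 ++ l2)).length = (run [] l2).length + (run γ l1).length := by
  rw [run_append, run_of_avoid hav, List.length_append]

/-- the tip of the state is the last vertex of the word -/
theorem head?_run (x : V) (δ : List V) (l : List V) :
    (run (x :: δ) l).head? = some ((x :: l).getLast (by simp)) := by
  induction l using List.reverseRecOn with
  | nil => simp
  | append_singleton l y ih =>
    rw [run_concat]
    obtain ⟨η, hη⟩ := step_eq_cons (run (x :: δ) l) y
    rw [hη]
    simp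

theorem getLast_mem_run (x : V) (δ : List V) (l : List V) :
    (x :: l).getLast (by simp) ∈ run (x :: δ) l := by
  have := head?_run x δ l
  exact List.mem_of_mem_head? (by rw [this]; rfl)

/-- a word from `x` which avoids `x` -/
theorem length_run_singleton_of_avoid {x : V} {l : List V} (h : x ∉ l) :
    (run [x] l).length = (run [] l).length + 1 := by
  have : ∀ y ∈ l, y ∉ [x] := by
    intro y hy hyx
    rw [List.mem_singleton] at hyx
    subst hyx; exact h hy
  rw [run_of_avoid this]; simp

end Pool.Agent.helper65.UT
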