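import Mathlib

/-! # MP_5ae64c_pr: submultiplicativity plus average bound gives a pointwise bound -/

namespace Pool.Agent.helper65.UT

/-- A submultiplicative sequence with bounded averages is bounded (at the given range). -/
theorem sup_of_submul (Z : ℕ → ℝ) (h0 : ∀ q, 0 ≤ Z q) (Q : ℕ)
    (hsub : ∀ q q', q + q' ≤ Q → Z (q + q') ≤ Z q * Z q') (C : ℝ)
    (hC : ∀ q ≤ Q, ∑ i ∈ Finset.range (q + 1), Z i ≤ C * (q + 1)) :
    ∀ q ≤ Q, Z q ≤ C ^ 2 := by
  intro q hq
  have hC0 : 0 ≤ C := by
    have := hC 0 (Nat.zero_le _)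
    simp at this
    exact (h0 0).trans this
  have h1 : ∀ i ∈ Finset.range (q + 1), Real.sqrt (Z q) ≤ (Z i + Z (q - i)) / 2 := by
    intro i hi
    rw [Finset.mem_range] at hi
    have e : i + (q - i) = q := by omega
    have h2 := hsub i (q - i) (by omega)
    rw [e] at h2
    rw [Real.sqrt_le_left (by have := h0 i; have := h0 (q - i); positivity)]
    nlinarith [sq_nonneg (Z i - Z (q - i))]
  have h2 := Finset.sum_le_sum h1
  rw [Finset.sum_const, Finset.card_range, nsmul_eq_mul, ← Finset.sum_div,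
    Finset.sum_add_distrib] at h2
  have h3 : ∑ i ∈ Finset.range (q + 1), Z (q - i) = ∑ i ∈ Finset.range (q + 1), Z i := by
    have := Finset.sum_range_reflect Z (q + 1)
    rw [← this]
    apply Finset.sum_congr rfl
    intro i hi
    rw [Finset.mem_range] at hi
    congr 1
  rw [h3] at h2
  have h4 := hC q hq
  push_cast at h2
  have h5 : Real.sqrt (Z q) ≤ C := by
    have hq1 : (0 : ℝ) < q + 1 := by positivity
    have : ((q : ℝ) + 1) * Real.sqrt (Z q) ≤ (q + 1) * C := by linarith
    exact le_of_mul_le_mul_left this hq1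
  calc Z q = Real.sqrt (Z q) ^ 2 := (Real.sq_sqrt (h0 q)).symm
    _ ≤ C ^ 2 := by gcongr

end Pool.Agent.helper65.UT
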