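import Pool.Agent.helper65.UT.Split
import Pool.Agent.helper65.UT.Submul

/-! # MP_5ae64c_pr: sums over words, Markov property, submultiplicativity of `Z` -/

namespace Pool.Agent.helper65.UT

open Finset

variable {V : Type*} [Fintype V] [DecidableEq V]

/-- sum over the next `k` vertices of the walk from `x`, with weights `p` -/
def W (p : V → V → ℝ) : ℕ → V → (List V → ℝ) → ℝ
  | 0, _, f => f []
  | k + 1, x, f => ∑ y, p x y * W p k y (fun l => f (y :: l))

omit [DecidableEq V] in
@[simp] theorem W_zero (p : V → V → ℝ) (x : V) (f : List V → ℝ) : W p 0 x f = f [] := rfl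

omit [DecidableEq V] in
theorem W_succ (p : V → V → ℝ) (k : ℕ) (x : V) (f : List V → ℝ) :
    W p (k + 1) x f = ∑ y, p x y * W p k y (fun l => f (y :: l)) := rfl

omit [DecidableEq V] in
/-- `W` only sees words of length `k` -/
theorem W_congr (p : V → V → ℝ) (k : ℕ) (x : V) {f g : List V → ℝ}
    (h : ∀ l : List V, l.length = k → f l = g l) : W p k x f = W p k x g := by
  induction k generalizing x f g with
  | zero => exact h [] rfl
  | succ k ih =>
    rw [W_succ, W_succ]
    refine sum_congr rfl fun y _ => ?_
    rw [ih y fun l hl => h (y :: l) (by simp [hl])]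

omit [DecidableEq V] in
theorem W_mono (p : V → V → ℝ) (hp : ∀ x y, 0 ≤ p x y) (k : ℕ) (x : V) {f g : List V → ℝ}
    (h : ∀ l : List V, l.length = k → f l ≤ g l) : W p k x f ≤ W p k x g := by
  induction k generalizing x f g with
  | zero => exact h [] rfl
  | succ k ih =>
    rw [W_succ, W_succ]
    refine sum_le_sum fun y _ => ?_
    exact mul_le_mul_of_nonneg_left (ih y fun l hl => h (y :: l) (by simp [hl])) (hp x y)

omit [DecidableEq V] in
theorem W_zero_fun (p : V → V → ℝ) (k : ℕ) (x : V) : W p k x (fun _ => 0) = 0 := by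
  induction k generalizing x with
  | zero => rfl
  | succ k ih => rw [W_succ]; simp [ih]

omit [DecidableEq V] in
theorem W_nonneg (p : V → V → ℝ) (hp : ∀ x y, 0 ≤ p x y) (k : ℕ) (x : V) {f : List V → ℝ}
    (h : ∀ l : List V, l.length = k → 0 ≤ f l) : 0 ≤ W p k x f := by
  have := W_mono p hp k x (f := fun _ => 0) h
  rwa [W_zero_fun] at this

omit [DecidableEq V] in
theorem W_add_fun (p : V → V → ℝ) (k : ℕ) (x : V) (f g : List V → ℝ) :
    W p k x (fun l => f l + g l) = W p k x f + W p k x g := by
  induction k generalizing x f g with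
  | zero => rfl
  | succ k ih =>
    rw [W_succ, W_succ, W_succ, ← sum_add_distrib]
    refine sum_congr rfl fun y _ => ?_
    rw [ih y, mul_add]

omit [DecidableEq V] in
theorem W_const_mul (p : V → V → ℝ) (k : ℕ) (x : V) (c : ℝ) (f : List V → ℝ) :
    W p k x (fun l => c * f l) = c * W p k x f := by
  induction k generalizing x f with
  | zero => rfl
  | succ k ih =>
    rw [W_succ, W_succ, mul_sum]
    refine sum_congr rfl fun y _ => ?_
    rw [ih y]; ring

omit [DecidableEq V] in
theorem W_mul_const (p : V → V → ℝ) (k : ℕ) (x : V) (c : ℝ) (f : List V → ℝ) :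
    W p k x (fun l => f l * c) = W p k x f * c := by
  rw [mul_comm, ← W_const_mul]
  exact W_congr p k x fun l _ => mul_comm _ _

omit [DecidableEq V] in
theorem W_sum {ι : Type*} (p : V → V → ℝ) (k : ℕ) (x : V) (s : Finset ι) (f : ι → List V → ℝ) :
    W p k x (fun l => ∑ i ∈ s, f i l) = ∑ i ∈ s, W p k x (f i) := by
  classical
  induction s using Finset.induction_on with
  | empty => simp [W_zero_fun]
  | insert a s ha ih =>
    simp_rw [Finset.sum_insert ha]
    rw [W_add_fun, ih]

omit [DecidableEq V] in
/-- total mass -/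
theorem W_const (p : V → V → ℝ) (hp1 : ∀ x, ∑ y, p x y = 1) (k : ℕ) (x : V) (c : ℝ) :
    W p k x (fun _ => c) = c := by
  induction k generalizing x with
  | zero => rfl
  | succ k ih =>
    rw [W_succ]
    simp_rw [ih]
    rw [← sum_mul, hp1, one_mul]

/-- the last vertex of the word started at `x` -/
def endpt (x : V) (l : List V) : V := (x :: l).getLast (by simp)

omit [Fintype V] [DecidableEq V] in
@[simp] theorem endpt_nil (x : V) : endpt x [] = x := rfl

omit [Fintype V] [DecidableEq V] in
@[simp] theorem endpt_cons (x y : V) (l : List V) : endpt x (y :: l) = endpt y l := by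
  simp [endpt]

omit [Fintype V] [DecidableEq V] in
theorem endpt_append (x : V) (l l' : List V) : endpt x (l ++ l') = endpt (endpt x l) l' := by
  induction l generalizing x with
  | nil => rfl
  | cons y l ih => rw [List.cons_append, endpt_cons, endpt_cons, ih]

omit [DecidableEq V] in
/-- Markov property -/
theorem W_add (p : V → V → ℝ) (i j : ℕ) (x : V) (f : List V → ℝ) :
    W p (i + j) x f = W p i x (fun l1 => W p j (endpt x l1) (fun l2 => f (l1 ++ l2))) := by
  induction i generalizing x f with
  | zero => simp
  | succ i ih =>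
    rw [show i + 1 + j = (i + j) + 1 by ring, W_succ, W_succ]
    refine sum_congr rfl fun y _ => ?_
    rw [ih y]
    simp

omit [DecidableEq V] in
/-- invariance under weight preserving bijections -/
theorem W_map (p : V → V → ℝ) (σ : V ≃ V) (hσ : ∀ x y, p (σ x) (σ y) = p x y) (k : ℕ) (x : V)
    (f : List V → ℝ) : W p k (σ x) f = W p k x (fun l => f (l.map σ)) := by
  induction k generalizing x f with
  | zero => rfl
  | succ k ih =>
    rw [W_succ, W_succ, ← Equiv.sum_comp σ]
    refine sum_congr rfl fun y _ => ?_
    rw [hσ, ih y]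
    rfl

omit [Fintype V] in
theorem step_map (σ : V ≃ V) (γ : List V) (y : V) :
    step (γ.map σ) (σ y) = (step γ y).map σ := by
  by_cases h : y ∈ γ
  · rw [step_of_mem h, step_of_mem (List.mem_map_of_mem h)]
    clear h
    induction γ with
    | nil => rfl
    | cons a γ ih =>
      by_cases ha : a = y
      · subst ha; simp
      · rw [List.map_cons, List.dropWhile_cons_of_pos (by simpa using ha),
          List.dropWhile_cons_of_pos (by simpa using ha)]
        exact ih
  · rw [step_of_not_mem h, step_of_not_mem (by simpa using h)]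
    rfl

omit [Fintype V] in
theorem run_map (σ : V ≃ V) (γ l : List V) : run (γ.map σ) (l.map σ) = (run γ l).map σ := by
  induction l generalizing γ with
  | nil => rfl
  | cons y l ih => rw [List.map_cons, run_cons, run_cons, step_map, ih]

/-- expected number of `t ≤ T` at which the loop erasure has exactly `q` steps -/
noncomputable def Z (p : V → V → ℝ) (T : ℕ) (x : V) (q : ℕ) : ℝ :=
  ∑ t ∈ range (T + 1), W p t x (fun l => if (run [x] l).length = q + 1 then 1 else 0)

theorem Z_nonneg (p : V → V → ℝ) (hp : ∀ x y, 0 ≤ p x y) (T : ℕ) (x : V) (q : ℕ) :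
    0 ≤ Z p T x q := by
  refine sum_nonneg fun t _ => W_nonneg p hp t x fun l _ => ?_
  split_ifs <;> norm_num

theorem Z_map (p : V → V → ℝ) (σ : V ≃ V) (hσ : ∀ x y, p (σ x) (σ y) = p x y) (T : ℕ) (x : V)
    (q : ℕ) : Z p T (σ x) q = Z p T x q := by
  unfold Z
  refine sum_congr rfl fun t _ => ?_
  rw [W_map p σ hσ]
  refine W_congr p t x fun l _ => ?_
  have : run [σ x] (l.map σ) = (run [x] l).map σ := run_map σ [x] l
  rw [this, List.length_map]

omit [Fintype V] in
/-- the pointwise split inequality -/
theorem indicator_split (x : V) (q q' : ℕ) (l : List V) :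
    (if (run [x] l).length = q + q' + 1 then (1 : ℝ) else 0)
      ≤ ∑ i ∈ range (l.length + 1),
        (if (run [x] (l.take i)).length = q + 1 then (1 : ℝ) else 0)
        * (if (run [endpt x (l.take i)] (l.drop i)).length = q' + 1 then 1 else 0) := by
  by_cases h : (run [x] l).length = q + q' + 1
  · obtain ⟨l1, l2, hl, hlen, hav⟩ := exists_split (γ := [x]) (by simp) (q + 1) (by simp) l
      (by omega)
    rw [if_pos h]
    have hi : l1.length ∈ range (l.length + 1) := by
      rw [mem_range, hl, List.length_append]; omega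
    refine le_trans ?_ (single_le_sum (f := fun i : ℕ =>
        (if (run [x] (l.take i)).length = q + 1 then (1 : ℝ) else 0)
        * (if (run [endpt x (l.take i)] (l.drop i)).length = q' + 1 then 1 else 0))
        (fun i _ => ?_) hi)
    · have e1 : l.take l1.length = l1 := by rw [hl]; simp
      have e2 : l.drop l1.length = l2 := by rw [hl]; simp
      simp only [e1, e2]
      rw [if_pos hlen, one_mul]
      have hx : endpt x l1 ∉ l2 := by
        intro hmem
        exact hav _ hmem (getLast_mem_run x [] l1)
      have h3 := length_run_singleton_of_avoid hx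
      have h4 := length_run_split hav
      rw [← hl, h, hlen] at h4
      rw [if_pos (by omega)]
    · split_ifs <;> norm_num
  · rw [if_neg h]
    refine sum_nonneg fun i _ => ?_
    split_ifs <;> norm_num

theorem sum_triangle_le (T : ℕ) (G : ℕ → ℕ → ℝ) (hG : ∀ i j, 0 ≤ G i j) :
    ∑ t ∈ range (T + 1), ∑ i ∈ range (t + 1), G i (t - i)
      ≤ ∑ i ∈ range (T + 1), ∑ j ∈ range (T + 1), G i j := by
  have e : ∑ t ∈ range (T + 1), ∑ i ∈ range (t + 1), G i (t - i)
      = ∑ i ∈ range (T + 1), ∑ t ∈ Ico i (T + 1), G i (t - i) := by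
    refine Finset.sum_comm' fun a b => ?_
    simp only [mem_range, mem_Ico]
    omega
  rw [e]
  refine sum_le_sum fun i _ => ?_
  rw [Finset.sum_Ico_eq_sum_range]
  have e2 : ∀ j ∈ range (T + 1 - i), G i (i + j - i) = G i j := by
    intro j _
    congr 1
    omega
  rw [sum_congr rfl e2]
  refine sum_le_sum_of_subset_of_nonneg ?_ fun j _ _ => hG i j
  intro j hj
  rw [mem_range] at hj ⊢
  omega

/-- **Submultiplicativity.** -/
theorem Z_submul (p : V → V → ℝ) (hp : ∀ x y, 0 ≤ p x y)
    (htr : ∀ x y : V, ∃ σ : V ≃ V, σ x = y ∧ ∀ a b, p (σ a) (σ b) = p a b) (T : ℕ) (x : V)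
    (q q' : ℕ) : Z p T x (q + q') ≤ Z p T x q * Z p T x q' := by
  have hZ : ∀ y, Z p T y q' = Z p T x q' := by
    intro y
    obtain ⟨σ, hσ, hp'⟩ := htr x y
    rw [← hσ, Z_map p σ hp']
  set A : List V → ℝ := fun l => if (run [x] l).length = q + 1 then (1 : ℝ) else 0 with hA
  set B : V → List V → ℝ := fun y l => if (run [y] l).length = q' + 1 then (1 : ℝ) else 0 with hB
  have hA0 : ∀ l, 0 ≤ A l := fun l => by simp only [hA]; split_ifs <;> norm_num
  have hB0 : ∀ y l, 0 ≤ B y l := fun y l => by simp only [hB]; split_ifs <;> norm_num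
  have step1 : ∀ t, W p t x (fun l => if (run [x] l).length = q + q' + 1 then (1 : ℝ) else 0)
      ≤ ∑ i ∈ range (t + 1), W p i x (fun l1 => A l1 * W p (t - i) (endpt x l1) (B (endpt x l1))) := by
    intro t
    calc W p t x (fun l => if (run [x] l).length = q + q' + 1 then (1 : ℝ) else 0)
        ≤ W p t x (fun l => ∑ i ∈ range (t + 1),
            A (l.take i) * B (endpt x (l.take i)) (l.drop i)) := by
          refine W_mono p hp t x fun l hl => ?_
          have := indicator_split x q q' l
          rw [hl] at this
          exact this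
      _ = ∑ i ∈ range (t + 1), W p t x (fun l =>
            A (l.take i) * B (endpt x (l.take i)) (l.drop i)) := W_sum _ _ _ _ _
      _ = _ := by
          refine sum_congr rfl fun i hi => ?_
          rw [mem_range] at hi
          have e : t = i + (t - i) := by omega
          conv_lhs => rw [e, W_add]
          refine W_congr p i x fun l1 hl1 => ?_
          rw [← W_const_mul]
          refine W_congr p (t - i) _ fun l2 _ => ?_
          rw [← hl1]
          simp
  have hinner : ∀ y, ∑ t ∈ range (T + 1), W p t y (B y) = Z p T x q' := fun y => hZ y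
  calc Z p T x (q + q')
      ≤ ∑ t ∈ range (T + 1), ∑ i ∈ range (t + 1),
          W p i x (fun l1 => A l1 * W p (t - i) (endpt x l1) (B (endpt x l1))) :=
        sum_le_sum fun t _ => step1 t
    _ ≤ ∑ i ∈ range (T + 1), ∑ j ∈ range (T + 1),
          W p i x (fun l1 => A l1 * W p j (endpt x l1) (B (endpt x l1))) := by
        have hG : ∀ i j, 0 ≤ W p i x (fun l1 => A l1 * W p j (endpt x l1) (B (endpt x l1))) :=
          fun i j => W_nonneg p hp i x fun l1 _ =>
            mul_nonneg (hA0 _) (W_nonneg p hp j _ fun l2 _ => hB0 _ _)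
        exact sum_triangle_le T _ hG
    _ = ∑ i ∈ range (T + 1), W p i x (fun l1 => A l1 * Z p T x q') := by
        refine sum_congr rfl fun i _ => ?_
        rw [← W_sum]
        refine W_congr p i x fun l1 _ => ?_
        rw [← mul_sum, hinner]
    _ = Z p T x q * Z p T x q' := by
        simp_rw [W_mul_const]
        rw [← sum_mul]
        rfl

end Pool.Agent.helper65.UT
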